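import Mathlib

/-!
Definitions used in the statement about free FK-Ising percolation on Gromov hyperbolic graphs.
-/

namespace Pool.Agent.FKHyp

open MeasureTheory Filter Topology

/-- A walk is a geodesic if its length is the graph distance between its two ends. -/
def IsGeodesic {V : Type*} {G : SimpleGraph V} {x y : V} (p : G.Walk x y) : Prop :=
  p.length = G.dist x y

/-- The triangle with the sides `p` (from `x` to `y`), `q` (from `y` to `z`), `r` (from `z` to `x`)
is `δ`-thin: every vertex of each side is within graph distance `δ` of the union of the other two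
sides. -/
def Thin {V : Type*} {G : SimpleGraph V} {x y z : V} (δ : ℕ)
    (p : G.Walk x y) (q : G.Walk y z) (r : G.Walk z x) : Prop :=
  (∀ u ∈ p.support, ∃ w, (w ∈ q.support ∨ w ∈ r.support) ∧ G.dist u w ≤ δ) ∧
  (∀ u ∈ q.support, ∃ w, (w ∈ r.support ∨ w ∈ p.support) ∧ G.dist u w ≤ δ) ∧
  (∀ u ∈ r.support, ∃ w, (w ∈ p.support ∨ w ∈ q.support) ∧ G.dist u w ≤ δ)

/-- Gromov hyperbolicity: there is a `δ` such that all geodesic triangles are `δ`-thin. -/
def GromovHyperbolic {V : Type*} (G : SimpleGraph V) : Prop :=
  ∃ δ : ℕ, ∀ (x y z : V) (p : G.Walk x y) (q : G.Walk y z) (r : G.Walk z x),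
    IsGeodesic p → IsGeodesic q → IsGeodesic r → Thin δ p q r

/-- Anchored Gromov hyperbolicity: for every vertex `v` there is a `δ` such that all geodesic
triangles passing through `v` are `δ`-thin. -/
def AnchoredHyperbolic {V : Type*} (G : SimpleGraph V) : Prop :=
  ∀ v : V, ∃ δ : ℕ, ∀ (x y z : V) (p : G.Walk x y) (q : G.Walk y z) (r : G.Walk z x),
    IsGeodesic p → IsGeodesic q → IsGeodesic r →
    (v ∈ p.support ∨ v ∈ q.support ∨ v ∈ r.support) → Thin δ p q r

/-- In the graph `G` there are, for every `δ`, geodesic triangles with the vertex `v` on one side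
and at graph distance larger than `δ` from every vertex of the other two sides. -/
def FatTriangles {V : Type*} (G : SimpleGraph V) (v : V) : Prop :=
  ∀ δ : ℕ, ∃ (x y z : V) (p : G.Walk x y) (q : G.Walk y z) (r : G.Walk z x),
    IsGeodesic p ∧ IsGeodesic q ∧ IsGeodesic r ∧ v ∈ q.support ∧
    ∀ w, (w ∈ p.support ∨ w ∈ r.support) → δ < G.dist v w

/-- A finite subgraph of `G`: a finite set of vertices and a finite set of edges of `G` whose ends
belong to the vertex set. -/
structure FinSub {V : Type*} (G : SimpleGraph V) where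
  /-- vertices -/
  verts : Finset V
  /-- edges -/
  edges : Finset (Sym2 V)
  edges_sub : ∀ e ∈ edges, e ∈ G.edgeSet
  ends : ∀ e ∈ edges, ∀ v ∈ e, v ∈ verts

/-- The number of connected components of the graph `(V_H, ω)` (isolated vertices of `V_H`
included). -/
noncomputable def numComp {V : Type*} {G : SimpleGraph V} (H : FinSub G)
    (ω : Finset (Sym2 V)) : ℕ :=
  Nat.card ((SimpleGraph.fromEdgeSet (ω : Set (Sym2 V))).induce
    (H.verts : Set V)).ConnectedComponent

/-- The FK-Ising (random cluster, `q = 2`) weight with free boundary conditions of `ω ⊆ E_H`. -/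
noncomputable def fkWeight {V : Type*} {G : SimpleGraph V} (H : FinSub G) (p : ℝ)
    (ω : Finset (Sym2 V)) : ℝ :=
  p ^ ω.card * (1 - p) ^ (H.edges.card - ω.card) * 2 ^ numComp H ω

/-- Percolation configurations: `true` means open, `false` means closed. -/
abbrev Config (V : Type*) : Type _ := Sym2 V → Bool

open Classical in
/-- The configuration in which exactly the edges in `ω` are open. -/
noncomputable def toConfig {V : Type*} (ω : Finset (Sym2 V)) : Config V :=
  fun e => if e ∈ ω then true else false

/-- The expectation of `f` under the FK-Ising measure on the finite subgraph `H` with free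
boundary conditions. -/
noncomputable def fkExp {V : Type*} {G : SimpleGraph V} (H : FinSub G) (p : ℝ)
    (f : Config V → ℝ) : ℝ :=
  (∑ ω ∈ H.edges.powerset, fkWeight H p ω * f (toConfig ω)) /
    ∑ ω ∈ H.edges.powerset, fkWeight H p ω

/-- An exhaustion of `G` by finite subgraphs. -/
def IsExhaustion {V : Type*} {G : SimpleGraph V} (H : ℕ → FinSub G) : Prop :=
  (∀ n, (H n).verts ⊆ (H (n + 1)).verts ∧ (H n).edges ⊆ (H (n + 1)).edges) ∧
  (∀ v, ∃ n, v ∈ (H n).verts) ∧ (∀ e ∈ G.edgeSet, ∃ n, e ∈ (H n).edges)

/-- `μ` is the free FK-Ising measure on `G` with parameter `p`: a probability measure that is the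
weak limit of the FK-Ising measures with free boundary conditions along an exhaustion of `G` by
finite subgraphs. -/
def IsFreeFKIsing {V : Type*} (G : SimpleGraph V) (p : ℝ) (μ : Measure (Config V)) : Prop :=
  IsProbabilityMeasure μ ∧ ∃ H : ℕ → FinSub G, IsExhaustion H ∧
    ∀ f : BoundedContinuousFunction (Config V) ℝ,
      Tendsto (fun n => fkExp (H n) p (fun ω => f ω)) atTop (𝓝 (∫ ω, f ω ∂μ))

/-- The subgraph of open edges of `G`. Its connected components are the clusters. -/
def openGraph {V : Type*} (G : SimpleGraph V) (ω : Config V) : SimpleGraph V :=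
  SimpleGraph.fromEdgeSet {e | e ∈ G.edgeSet ∧ ω e = true}

/-- The event that there is an infinite cluster. -/
def HasInfiniteCluster {V : Type*} (G : SimpleGraph V) (ω : Config V) : Prop :=
  ∃ C : (openGraph G ω).ConnectedComponent, C.supp.Infinite

/-- The critical probability: the infimum of the `p ∈ [0, 1]` for which a free FK-Ising measure
has an infinite cluster with positive probability. -/
noncomputable def criticalProb {V : Type*} (G : SimpleGraph V) : ℝ :=
  sInf {p : ℝ | 0 ≤ p ∧ p ≤ 1 ∧ ∃ μ : Measure (Config V), IsFreeFKIsing G p μ ∧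
    0 < μ {ω | HasInfiniteCluster G ω}}

end Pool.Agent.FKHyp
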