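import Pool.Agent.FKHyp.Perc

/-! Deterministic part: a configuration outside the bad events has an infinite cluster, and every
infinite cluster contains fat geodesic triangles through one fixed vertex. -/

namespace Pool.Agent.FKHyp

open Vert

/-- open subgraph of the graph -/
abbrev OO (ω : Config Vert) : SimpleGraph Vert := openGraph GG ω

theorem OO_adj {ω : Config Vert} {x y : Vert} :
    (OO ω).Adj x y ↔ GG.Adj x y ∧ ω s(x, y) = true := by
  unfold OO openGraph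
  rw [SimpleGraph.fromEdgeSet_adj]
  constructor
  · rintro ⟨⟨h1, h2⟩, -⟩
    exact ⟨h1, h2⟩
  · rintro ⟨h1, h2⟩
    exact ⟨⟨h1, h2⟩, h1.ne⟩

theorem OO_hadj {ω : Config Vert} (x y : Vert) (h : (OO ω).Adj x y) : HAdj x.pos y.pos :=
  (OO_adj.1 h).1

theorem common {ω : Config Vert} {l : ℕ} (hA : ∀ n, l ≤ n → ω ∉ BadA n) {a b : Vert}
    {P : ℕ × ℕ} (ha : l ≤ a.lev) (hab : a.pos = b.pos) (hadj : HAdj a.pos P)
    (hP : P.2 < 2 ^ P.1) (hS : Strong P.1 P.2) :
    ∃ c : Vert, c.pos = P ∧ (OO ω).Adj a c ∧ (OO ω).Adj b c := by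
  have h1 : ω ∉ NoCommon a b P := fun h => hA a.lev ha ⟨a, b, P, rfl, hab, hadj, hP, hS, h⟩
  have h2 : ∃ c : Vert, c.pos = P ∧ (ω s(a, c) = true ∧ ω s(b, c) = true) := by
    by_contra hcon
    push Not at hcon
    exact h1 (fun c hc h3 => by
      have := hcon c hc h3.1
      exact this h3.2)
  obtain ⟨c, hc, h3, h4⟩ := h2
  refine ⟨c, hc, OO_adj.2 ⟨?_, h3⟩, OO_adj.2 ⟨?_, h4⟩⟩
  · rw [GG_adj, hc]; exact hadj
  · rw [GG_adj, hc, ← hab]; exact hadj

/-- a strong ray -/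
def IsRay (r : ℕ → ℕ) : Prop := ∀ n, r n < 2 ^ n ∧ r (n + 1) / 2 = r n ∧ Strong n (r n)

/-- left ray -/
def rL : ℕ → ℕ := fun _ => 0
/-- right ray -/
def rR : ℕ → ℕ := fun n => 2 ^ n - 1

theorem isRay_rL : IsRay rL := fun n => ⟨by unfold rL; positivity, by simp [rL], Or.inl rfl⟩

theorem isRay_rR : IsRay rR := by
  intro n
  unfold rR
  have h : 0 < 2 ^ n := by positivity
  refine ⟨by omega, ?_, Or.inr (Or.inl (by omega))⟩
  rw [pow_succ]
  omega

theorem ray_up_adj {r : ℕ → ℕ} (hr : IsRay r) (n : ℕ) : HAdj (n, r n) (n + 1, r (n + 1)) := by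
  left; exact ⟨rfl, (hr n).2.1⟩

theorem same_pos_ray {ω : Config Vert} {l : ℕ} (hA : ∀ n, l ≤ n → ω ∉ BadA n) {r : ℕ → ℕ}
    (hr : IsRay r) {n : ℕ} (hn : l ≤ n) {a b : Vert} (ha : a.pos = (n, r n))
    (hb : b.pos = (n, r n)) : Wk (OO ω) 2 a b := by
  have hal : a.lev = n := congrArg Prod.fst ha
  obtain ⟨c, -, h1, h2⟩ := common hA (a := a) (b := b) (P := (n + 1, r (n + 1)))
    (by omega) (ha.trans hb.symm) (by rw [ha]; exact ray_up_adj hr n) (hr (n + 1)).1
    (hr (n + 1)).2.2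
  exact (Wk.of_adj h1).trans (Wk.of_adj h2).symm

theorem ray_down {ω : Config Vert} {l : ℕ} (hA : ∀ n, l ≤ n → ω ∉ BadA n) {r : ℕ → ℕ}
    (hr : IsRay r) {m : ℕ} (hm : l ≤ m) (s : ℕ) : ∀ (a b : Vert),
    a.pos = (m + s, r (m + s)) → b.pos = (m, r m) → Wk (OO ω) (s + 2) a b := by
  induction s with
  | zero =>
    intro a b ha hb
    exact same_pos_ray hA hr hm ha hb
  | succ s ih =>
    intro a b ha hb
    have hal : a.lev = m + (s + 1) := congrArg Prod.fst ha
    obtain ⟨c, hc, h1, -⟩ := common hA (a := a) (b := a) (P := (m + s, r (m + s)))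
      (by omega) rfl (by rw [ha]; exact (ray_up_adj hr (m + s)).symm) (hr (m + s)).1
      (hr (m + s)).2.2
    exact ((Wk.of_adj h1).trans (ih c b hc hb)).mono (by omega)

theorem strong_conn {k : ℕ} (hk : 1 ≤ k) (i : ℕ) : Strong (4 ^ k) i := Or.inr (Or.inr ⟨k, hk, rfl⟩)

theorem conn_step {ω : Config Vert} {l : ℕ} (hA : ∀ n, l ≤ n → ω ∉ BadA n) {k : ℕ}
    (hk : 1 ≤ k) (hl : l ≤ 4 ^ k) {i : ℕ} (hi : i + 1 < 2 ^ (4 ^ k)) {a b : Vert}
    (ha : a.pos = (4 ^ k, i)) (hb : b.pos = (4 ^ k, i + 1)) : Wk (OO ω) 3 a b := by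
  have hal : a.lev = 4 ^ k := congrArg Prod.fst ha
  have hbl : b.lev = 4 ^ k := congrArg Prod.fst hb
  have hadj : HAdj (4 ^ k, i) (4 ^ k, i + 1) := Or.inr (Or.inr ⟨rfl, Or.inl rfl⟩)
  obtain ⟨c, hc, h1, -⟩ := common hA (a := a) (b := a) (P := (4 ^ k, i + 1))
    (by omega) rfl (by rw [ha]; exact hadj) hi (strong_conn hk _)
  have hcl : c.lev = 4 ^ k := congrArg Prod.fst hc
  obtain ⟨d, -, h2, h3⟩ := common hA (a := c) (b := b) (P := (4 ^ k, i))
    (by omega) (hc.trans hb.symm) (by rw [hc]; exact hadj.symm)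
    (by show i < 2 ^ (4 ^ k); omega) (strong_conn hk _)
  exact ((Wk.of_adj h1).trans ((Wk.of_adj h2).trans (Wk.of_adj h3).symm))

/-- canonical vertices on a level -/
noncomputable def xx (N i : ℕ) : Vert := ofPos (mk0 0 0 (by norm_num)) (N, i)

theorem xx_pos {N i : ℕ} (h : i < 2 ^ N) : (xx N i).pos = (N, i) := by
  unfold xx ofPos
  rw [dif_pos h]
  rfl

theorem conn_reach {ω : Config Vert} {l : ℕ} (hA : ∀ n, l ≤ n → ω ∉ BadA n) {k : ℕ}
    (hk : 1 ≤ k) (hl : l ≤ 4 ^ k) (i : ℕ) (hi : i < 2 ^ (4 ^ k)) :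
    (OO ω).Reachable (xx (4 ^ k) 0) (xx (4 ^ k) i) := by
  induction i with
  | zero => exact SimpleGraph.Reachable.refl _
  | succ i ih =>
    exact (ih (by omega)).trans
      (conn_step hA hk hl hi (xx_pos (by omega)) (xx_pos hi)).reachable

theorem ray_reach {ω : Config Vert} {l : ℕ} (hA : ∀ n, l ≤ n → ω ∉ BadA n) {r : ℕ → ℕ}
    (hr : IsRay r) {n m : ℕ} (hn : l ≤ n) (hm : l ≤ m) {a b : Vert} (ha : a.pos = (n, r n))
    (hb : b.pos = (m, r m)) : (OO ω).Reachable a b := by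
  rcases le_total m n with h | h
  · obtain ⟨s, rfl⟩ := Nat.exists_eq_add_of_le h
    exact (ray_down hA hr hm s a b ha hb).reachable
  · obtain ⟨s, rfl⟩ := Nat.exists_eq_add_of_le h
    exact (ray_down hA hr hn s b a hb ha).reachable.symm

theorem exists_conn_level (l : ℕ) : ∃ k, 1 ≤ k ∧ l ≤ 4 ^ k := by
  refine ⟨l + 1, by omega, ?_⟩
  have : l + 1 < 4 ^ (l + 1) := Nat.lt_pow_self (by norm_num)
  omega

theorem LR_reach {ω : Config Vert} {l : ℕ} (hA : ∀ n, l ≤ n → ω ∉ BadA n)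
    {n m : ℕ} (hn : l ≤ n) (hm : l ≤ m) {a b : Vert} (ha : a.pos = (n, rL n))
    (hb : b.pos = (m, rR m)) : (OO ω).Reachable a b := by
  obtain ⟨k, hk, hl⟩ := exists_conn_level l
  have hpos : 0 < 2 ^ (4 ^ k) := by positivity
  have h1 : (OO ω).Reachable a (xx (4 ^ k) 0) :=
    ray_reach hA isRay_rL hn hl ha (xx_pos hpos)
  have h2 : (OO ω).Reachable (xx (4 ^ k) 0) (xx (4 ^ k) (rR (4 ^ k))) :=
    conn_reach hA hk hl _ (isRay_rR _).1
  have h3 : (OO ω).Reachable (xx (4 ^ k) (rR (4 ^ k))) b :=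
    ray_reach hA isRay_rR hl hm (xx_pos (isRay_rR _).1) hb
  exact h1.trans (h2.trans h3)

/-- on one of the two rays -/
def OnRay (u : Vert) : Prop := u.pos = (u.lev, rL u.lev) ∨ u.pos = (u.lev, rR u.lev)

theorem ray_ray_reach {ω : Config Vert} {l : ℕ} (hA : ∀ n, l ≤ n → ω ∉ BadA n) {a b : Vert}
    (hn : l ≤ a.lev) (hm : l ≤ b.lev) (ha : OnRay a) (hb : OnRay b) :
    (OO ω).Reachable a b := by
  rcases ha with ha | ha <;> rcases hb with hb | hb
  · exact ray_reach hA isRay_rL hn hm ha hb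
  · exact LR_reach hA hn hm ha hb
  · exact (LR_reach hA hm hn hb ha).symm
  · exact ray_reach hA isRay_rR hn hm ha hb

/-- a weak vertex strictly between the levels `4 ^ k / 2` and `4 ^ k` and off the rays -/
theorem weak_of {k : ℕ} {u : Vert} (h1 : 4 ^ k / 2 < u.lev) (h2 : u.lev < 4 ^ k)
    (h : ¬ OnRay u) : ¬ Strong u.lev u.idx := by
  rintro (h3 | h3 | ⟨j, hj, h3⟩)
  · exact h (Or.inl (by unfold pos rL; rw [h3]))
  · exact h (Or.inr (by unfold pos rR; rw [← h3]; simp))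
  · rcases Nat.lt_or_ge j k with hjk | hjk
    · have : 4 ^ (j + 1) ≤ 4 ^ k := Nat.pow_le_pow_right (by norm_num) hjk
      rw [pow_succ] at this
      omega
    · have : 4 ^ k ≤ 4 ^ j := Nat.pow_le_pow_right (by norm_num) hjk
      omega

theorem lev_lip {ω : Config Vert} {a b : Vert} (P : (OO ω).Walk a b) :
    a.lev ≤ b.lev + P.length ∧ b.lev ≤ a.lev + P.length := by
  induction P with
  | nil => simp
  | cons h P ih =>
    have := adj_lev (OO_adj.1 h).1
    rw [SimpleGraph.Walk.length_cons]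
    omega

theorem dist_lip {ω : Config Vert} {a b : Vert} (h : (OO ω).Reachable a b) :
    a.lev ≤ b.lev + (OO ω).dist a b ∧ b.lev ≤ a.lev + (OO ω).dist a b := by
  obtain ⟨P, hP⟩ := h.exists_walk_length_eq_dist
  rw [← hP]
  exact lev_lip P

/-- induction along a trail that crosses the weak band -/
theorem band_aux {ω : Config Vert} {k : ℕ} (hk : 1 ≤ k) {a b : Vert} (P : (OO ω).Walk a b)
    (hP : P.IsTrail) (hb : b.lev ≤ 4 ^ k / 2)
    (hoff : ∀ u ∈ P.support, 4 ^ k / 2 ≤ u.lev → u.lev ≤ 4 ^ k → ¬ OnRay u) :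
    (4 ^ k ≤ a.lev → ω ∈ BadB k) ∧
    (4 ^ k / 2 < a.lev → a.lev < 4 ^ k → ω ∈ BadB k ∨
      ∃ (u : Vert) (q : (OO ω).Walk a u), q.IsTrail ∧ q.edges ⊆ P.edges ∧
        u.lev = 4 ^ k / 2 + 1 ∧ ∀ x ∈ q.support, ¬ Strong x.lev x.idx) := by
  induction P with
  | nil => 
    have hpos : 0 < 4 ^ k := by positivity
    constructor
    · intro h; omega
    · intro h; omega
  | @cons a a' b hadj P ih =>
    rw [SimpleGraph.Walk.isTrail_cons] at hP
    obtain ⟨ih1, ih2⟩ := ih hP.1 hb (fun u hu => hoff u (by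
      rw [SimpleGraph.Walk.support_cons]; exact List.mem_cons_of_mem _ hu))
    have hl := adj_lev (OO_adj.1 hadj).1
    have hgood : a'.lev + 1 = 4 ^ k → 4 ^ k / 2 < a'.lev →
        (∃ (u : Vert) (q : (OO ω).Walk a' u), q.IsTrail ∧ q.edges ⊆ P.edges ∧
        u.lev = 4 ^ k / 2 + 1 ∧ ∀ x ∈ q.support, ¬ Strong x.lev x.idx) → ω ∈ BadB k := by
      rintro h1 - ⟨u, q, hq, -, hu, hw⟩
      refine ⟨a', h1, hw a' q.start_mem_support, ?_⟩
      refine ⟨by simp, u, q.transfer GG ?_, ?_, ?_, ?_, ?_⟩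
      · intro e he
        have := q.edges_subset_edgeSet he
        induction e using Sym2.ind with
        | _ x y => exact (OO_adj.1 this).1
      · rw [SimpleGraph.Walk.isTrail_def, SimpleGraph.Walk.edges_transfer]
        exact (SimpleGraph.Walk.isTrail_def _).1 hq
      · rw [SimpleGraph.Walk.length_transfer]
        have := lev_lip q
        omega
      · intro e he
        rw [SimpleGraph.Walk.edges_transfer] at he
        have := q.edges_subset_edgeSet he
        refine ⟨?_, by simp⟩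
        induction e using Sym2.ind with
        | _ x y => exact (OO_adj.1 this).2
      · rw [SimpleGraph.Walk.support_transfer]
        exact hw
    constructor
    · intro ha
      by_cases h1 : 4 ^ k ≤ a'.lev
      · exact ih1 h1
      · by_cases h2 : 4 ^ k / 2 < a'.lev
        · rcases ih2 h2 (by omega) with h3 | h3
          · exact h3
          · exact hgood (by omega) h2 h3
        · -- impossible unless `4 ^ k` is tiny
          exfalso
          have h4 : 4 ≤ 4 ^ k := by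
            calc 4 = 4 ^ 1 := (pow_one 4).symm
              _ ≤ 4 ^ k := Nat.pow_le_pow_right (by norm_num) hk
          omega
    · intro h1 h2
      have haw : ¬ Strong a.lev a.idx :=
        weak_of h1 h2 (hoff a (by simp) h1.le h2.le)
      by_cases h3 : 4 ^ k ≤ a'.lev
      · exact Or.inl (ih1 h3)
      · by_cases h4 : 4 ^ k / 2 < a'.lev
        · rcases ih2 h4 (by omega) with h5 | ⟨u, q, hq, hsub, hu, hw⟩
          · exact Or.inl h5
          · right
            refine ⟨u, SimpleGraph.Walk.cons hadj q, ?_, ?_, hu, ?_⟩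
            · rw [SimpleGraph.Walk.isTrail_cons]
              exact ⟨hq, fun h => hP.2 (hsub h)⟩
            · rw [SimpleGraph.Walk.edges_cons, SimpleGraph.Walk.edges_cons]
              exact List.cons_subset_cons _ hsub
            · intro x hx
              rw [SimpleGraph.Walk.support_cons, List.mem_cons] at hx
              rcases hx with rfl | hx
              · exact haw
              · exact hw x hx
        · right
          refine ⟨a, SimpleGraph.Walk.nil, by simp, by simp, by omega, ?_⟩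
          intro x hx
          simp only [SimpleGraph.Walk.support_nil, List.mem_singleton] at hx
          rw [hx]
          exact haw

theorem hit_ray {ω : Config Vert} {k : ℕ} (hk : 1 ≤ k) (hB : ω ∉ BadB k) {a b : Vert}
    (P : (OO ω).Walk a b) (ha : 4 ^ k ≤ a.lev) (hb : b.lev ≤ 4 ^ k / 2) :
    ∃ u ∈ P.support, OnRay u ∧ 4 ^ k / 2 ≤ u.lev ∧ u.lev ≤ 4 ^ k := by
  classical
  by_contra hcon
  push Not at hcon
  apply hB
  refine (band_aux hk (P.toPath : (OO ω).Walk a b) P.toPath.2.isTrail hb ?_).1 ha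
  intro u hu h1 h2 h3
  have := hcon u (P.support_toPath_subset_support hu) h3 h1
  omega

/-- pointwise almost-distance bound along the two rays -/
theorem ray_dist {ω : Config Vert} {l : ℕ} (hA : ∀ n, l ≤ n → ω ∉ BadA n) {r : ℕ → ℕ}
    (hr : IsRay r) {m N : ℕ} (hm : l ≤ m) (hmN : m ≤ N) {a b : Vert} (ha : a.pos = (N, r N))
    (hb : b.pos = (m, r m)) : (OO ω).dist b a ≤ N - m + 2 := by
  obtain ⟨s, rfl⟩ := Nat.exists_eq_add_of_le hmN
  have := (ray_down hA hr hm s a b ha hb).symm.dist_le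
  omega

/-- geodesics from a balanced point avoid bounded balls -/
theorem side_avoid {ω : Config Vert} {l k : ℕ} (hA : ∀ n, l ≤ n → ω ∉ BadA n) (hk : 1 ≤ k)
    (hB : ω ∉ BadB k) (hl : l ≤ 4 ^ k / 2) {r r' : ℕ → ℕ} (hr : IsRay r) (hr' : IsRay r')
    (hrr : ∀ u : Vert, OnRay u → u.pos = (u.lev, r u.lev) ∨ u.pos = (u.lev, r' u.lev))
    {x y z v : Vert} (hx : x.lev = 4 ^ k) (hy : y.pos = (4 ^ k, r (4 ^ k)))
    (hz : z.pos = (4 ^ k, r' (4 ^ k)))
    (hbal : (OO ω).dist x y ≤ (OO ω).dist x z + 5) {p : (OO ω).Walk x y} (hp : IsGeodesic p)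
    {δ : ℕ} (hbig : 2 * (v.lev + δ) + 8 ≤ 4 ^ k) {w : Vert} (hw : w ∈ p.support)
    (hvw : (OO ω).Reachable v w) : δ < (OO ω).dist v w := by
  by_contra hcon
  have hvw2 := dist_lip hvw
  have hwl : w.lev ≤ v.lev + δ := by omega
  obtain ⟨p1, p2, rfl⟩ := SimpleGraph.Walk.mem_support_iff_exists_append.1 hw
  obtain ⟨g1, g2⟩ := geo_append hp
  obtain ⟨u, hu, hur, hu1, hu2⟩ := hit_ray hk hB p1 hx.ge (by omega)
  have e1 := geo_mem g1 hu
  have e2 := geo_mem hp hw
  obtain ⟨p11, p12, rfl⟩ := SimpleGraph.Walk.mem_support_iff_exists_append.1 hu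
  have rxu : (OO ω).Reachable x u := p11.reachable
  have ruw : (OO ω).Reachable u w := p12.reachable
  have rwy : (OO ω).Reachable w y := p2.reachable
  have d1 := dist_lip ruw
  have d2 := dist_lip rwy
  have hyl : y.lev = 4 ^ k := congrArg Prod.fst hy
  rcases hrr u hur with h | h
  · have d3 := ray_dist hA hr (hl.trans hu1) hu2 hy h
    have d4 := rxu.dist_triangle_left y
    omega
  · have d3 := ray_dist hA hr' (hl.trans hu1) hu2 hz h
    have d4 := rxu.dist_triangle_left z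
    omega

theorem discrete_ivt (P : ℕ → Prop) (n : ℕ) (h0 : P 0) (hn : ¬ P n) :
    ∃ i, i < n ∧ P i ∧ ¬ P (i + 1) := by
  induction n with
  | zero => exact absurd h0 hn
  | succ n ih =>
    by_cases h : P n
    · exact ⟨n, Nat.lt_succ_self n, h, hn⟩
    · obtain ⟨i, hi, h1, h2⟩ := ih h
      exact ⟨i, by omega, h1, h2⟩

/-- the balanced point -/
theorem exists_balanced {ω : Config Vert} {l k : ℕ} (hA : ∀ n, l ≤ n → ω ∉ BadA n) (hk : 1 ≤ k)
    (hl : l ≤ 4 ^ k) :
    ∃ x : Vert, x.lev = 4 ^ k ∧ (OO ω).Reachable x (xx (4 ^ k) 0) ∧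
      (OO ω).Reachable x (xx (4 ^ k) (rR (4 ^ k))) ∧
      (OO ω).dist x (xx (4 ^ k) 0) ≤ (OO ω).dist x (xx (4 ^ k) (rR (4 ^ k))) ∧
      (OO ω).dist x (xx (4 ^ k) (rR (4 ^ k))) ≤ (OO ω).dist x (xx (4 ^ k) 0) + 5 := by
  set N := 4 ^ k with hN
  have hN4 : 4 ≤ N := by
    rw [hN]
    calc 4 = 4 ^ 1 := (pow_one 4).symm
      _ ≤ 4 ^ k := Nat.pow_le_pow_right (by norm_num) hk
  have hpow : N < 2 ^ N := Nat.lt_two_pow_self
  have hR : rR N < 2 ^ N := (isRay_rR N).1
  have hRR : rR N = 2 ^ N - 1 := rfl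
  have hreach : ∀ i, i < 2 ^ N → (OO ω).Reachable (xx N 0) (xx N i) :=
    fun i hi => conn_reach hA hk hl i hi
  obtain ⟨i, hi, h1, h2⟩ := discrete_ivt
    (fun i => (OO ω).dist (xx N i) (xx N 0) ≤ (OO ω).dist (xx N i) (xx N (rR N))) (rR N)
    (by simp) (by
      simp only [SimpleGraph.dist_self, Nat.le_zero_eq]
      intro h
      have h3 := (hreach _ hR).symm.dist_eq_zero_iff.1 h
      have h4 := congrArg Vert.pos h3
      rw [xx_pos hR, xx_pos (by omega)] at h4
      have h5 := congrArg Prod.snd h4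
      simp only at h5
      omega)
  have hi1 : i + 1 < 2 ^ N := by omega
  have hi2 : i < 2 ^ N := by omega
  have ri := hreach i hi2
  have ri1 := hreach (i + 1) hi1
  have rR' := hreach _ hR
  have hstep : (OO ω).dist (xx N i) (xx N (i + 1)) ≤ 3 :=
    (conn_step hA hk hl hi1 (xx_pos (by omega)) (xx_pos hi1)).dist_le
  have t1 := (ri.symm.trans ri1).dist_triangle_left (xx N (rR N))
  have t2 := (ri1.symm.trans ri).dist_triangle_left (xx N 0)
  have c1 : (OO ω).dist (xx N (i + 1)) (xx N i) = (OO ω).dist (xx N i) (xx N (i + 1)) :=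
    SimpleGraph.dist_comm
  refine ⟨xx N i, ?_, ri.symm, ri.symm.trans rR', h1, ?_⟩
  · exact congrArg Prod.fst (xx_pos hi2)
  · omega

/-- geodesics between the two rays pass close to the root -/
theorem geodesic_low {ω : Config Vert} {l : ℕ} (hA : ∀ n, l ≤ n → ω ∉ BadA n) :
    ∃ m, ∀ N, l ≤ N → ∀ (y z : Vert), y.pos = (N, rL N) → z.pos = (N, rR N) →
      ∀ q : (OO ω).Walk y z, IsGeodesic q → ∃ c ∈ q.support, c.lev ≤ m := by
  have hl1 : (xx l (rL l)).pos = (l, rL l) := xx_pos (isRay_rL l).1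
  have hl2 : (xx l (rR l)).pos = (l, rR l) := xx_pos (isRay_rR l).1
  have hreach : (OO ω).Reachable (xx l (rL l)) (xx l (rR l)) :=
    LR_reach hA le_rfl le_rfl hl1 hl2
  set K := (OO ω).dist (xx l (rL l)) (xx l (rR l)) with hK
  refine ⟨K + 5, ?_⟩
  intro N hN y z hy hz q hq
  have d1 := ray_dist hA isRay_rL le_rfl hN hy hl1
  have d2 := ray_dist hA isRay_rR le_rfl hN hz hl2
  have r1 : (OO ω).Reachable (xx l (rL l)) y := ray_reach hA isRay_rL le_rfl hN hl1 hy
  have r2 : (OO ω).Reachable (xx l (rR l)) z := ray_reach hA isRay_rR le_rfl hN hl2 hz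
  have t1 := (r1.symm).dist_triangle_left z
  have t2 := hreach.dist_triangle_left z
  have c1 : (OO ω).dist y (xx l (rL l)) = (OO ω).dist (xx l (rL l)) y := SimpleGraph.dist_comm
  obtain ⟨c, hc, h1, h2, h3⟩ := walk_lemma pos OO_hadj q
  refine ⟨c, hc, ?_⟩
  have hql : q.length = (OO ω).dist y z := hq
  have e0 : c.pos.1 = c.lev := rfl
  have ey : y.pos.1 = N := by rw [hy]
  have ez : z.pos.1 = N := by rw [hz]
  rw [ey, ez, e0] at h3
  rw [ey, e0] at h1
  have a1 : anc c.lev y.pos = 0 := by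
    rw [hy]; unfold anc rL; simp
  have a2 : anc c.lev z.pos = 2 ^ c.lev - 1 := by
    rw [hz]; unfold anc rR
    simp only
    have hsplit : 2 ^ N = 2 ^ c.lev * 2 ^ (N - c.lev) := by
      rw [← pow_add]; congr 1; omega
    have hp : 0 < 2 ^ (N - c.lev) := by positivity
    have hp' : 0 < 2 ^ c.lev := by positivity
    rw [hsplit]
    obtain ⟨A, hA'⟩ : ∃ A, 2 ^ c.lev = A + 1 := ⟨2 ^ c.lev - 1, by omega⟩
    rw [hA']
    have : (A + 1) * 2 ^ (N - c.lev) - 1 = (2 ^ (N - c.lev) - 1) + 2 ^ (N - c.lev) * A := by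
      have : (A + 1) * 2 ^ (N - c.lev) = 2 ^ (N - c.lev) * A + 2 ^ (N - c.lev) := by ring
      omega
    rw [this, Nat.add_mul_div_left _ _ hp, Nat.div_eq_of_lt (by omega)]
    omega
  rw [a1, a2] at h3
  unfold D at h3
  by_contra hcon
  have hbig : 3 * c.lev < 2 ^ c.lev := by
    have key : ∀ t, 4 ≤ t → 3 * t < 2 ^ t := by
      intro t ht
      induction t, ht using Nat.le_induction with
      | base => norm_num
      | succ t ht ih => rw [pow_succ]; omega
    exact key _ (by omega)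
  omega

/-- the statement inside the open graph -/
theorem fat_triangles {ω : Config Vert} {l lB : ℕ} (hA : ∀ n, l ≤ n → ω ∉ BadA n)
    (hB : ∀ k, lB ≤ k → ω ∉ BadB k) :
    ∃ v : Vert, (OO ω).Reachable v (xx l 0) ∧ ∀ δ : ℕ, ∃ (x y z : Vert) (p : (OO ω).Walk x y)
      (q : (OO ω).Walk y z) (r : (OO ω).Walk z x), IsGeodesic p ∧ IsGeodesic q ∧ IsGeodesic r ∧
      v ∈ q.support ∧ ∀ w, (w ∈ p.support ∨ w ∈ r.support) → δ < (OO ω).dist v w := by
  classical
  obtain ⟨m, hm⟩ := geodesic_low hA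
  have hkl : ∀ k, l ≤ 4 ^ (k + l + 1) ∧ l ≤ 4 ^ (k + l + 1) / 2 ∧ k + 1 ≤ 4 ^ (k + l + 1) / 2 := by
    intro k
    have h1 : k + l < 4 ^ (k + l) := Nat.lt_pow_self (by norm_num)
    have h2 : 4 ^ (k + l + 1) = 4 * 4 ^ (k + l) := by ring
    omega
  have hLR : ∀ k, (OO ω).Reachable (xx (4 ^ (k + l + 1)) (rL (4 ^ (k + l + 1))))
      (xx (4 ^ (k + l + 1)) (rR (4 ^ (k + l + 1)))) := fun k =>
    LR_reach hA (hkl k).1 (hkl k).1 (xx_pos (isRay_rL _).1) (xx_pos (isRay_rR _).1)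
  choose q hq using fun k => (hLR k).exists_walk_length_eq_dist
  have hc : ∀ k, ∃ c ∈ (q k).support, c.lev ≤ m := fun k =>
    hm _ (hkl k).1 _ _ (xx_pos (isRay_rL _).1) (xx_pos (isRay_rR _).1) (q k) (hq k)
  choose c hcq hcm using hc
  have : Finite {x : Vert | x.lev ≤ m} := (finite_lev_le m).to_subtype
  obtain ⟨⟨v, hvm⟩, hv⟩ := Finite.exists_infinite_fiber
    (fun k : ℕ => (⟨c k, hcm k⟩ : {x : Vert | x.lev ≤ m}))
  have hvinf : {k : ℕ | c k = v}.Infinite := by
    rw [Set.infinite_coe_iff] at hv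
    refine hv.mono ?_
    intro k hk
    exact congrArg Subtype.val hk
  have hyr : ∀ k, (OO ω).Reachable (xx (4 ^ (k + l + 1)) (rL (4 ^ (k + l + 1)))) (xx l 0) :=
    fun k => ray_reach hA isRay_rL (hkl k).1 le_rfl (xx_pos (isRay_rL _).1) (xx_pos (isRay_rL _).1)
  have hvr : (OO ω).Reachable v (xx l 0) := by
    obtain ⟨k, hk⟩ := hvinf.nonempty
    have hk' : c k = v := hk
    have h1 : v ∈ (q k).support := hk' ▸ hcq k
    obtain ⟨q1, q2, -⟩ := SimpleGraph.Walk.mem_support_iff_exists_append.1 h1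
    exact q1.reachable.symm.trans (hyr k)
  refine ⟨v, hvr, ?_⟩
  intro δ
  obtain ⟨k, hk, hkbig⟩ := hvinf.exists_gt (lB + v.lev + δ + 8)
  have hk' : c k = v := hk
  have h1 : v ∈ (q k).support := hk' ▸ hcq k
  set κ := k + l + 1 with hκ
  have hκ1 : 1 ≤ κ := by omega
  obtain ⟨hl1, hl2, hl3⟩ := hkl k
  rw [← hκ] at hl1 hl2 hl3
  have hBk : ω ∉ BadB κ := hB κ (by omega)
  obtain ⟨x, hx, rx1, rx2, hb1, hb2⟩ := exists_balanced hA hκ1 hl1
  obtain ⟨p, hp⟩ := rx1.exists_walk_length_eq_dist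
  obtain ⟨r, hr⟩ := rx2.exists_walk_length_eq_dist
  have hrev : IsGeodesic r.reverse := by
    unfold IsGeodesic
    rw [SimpleGraph.Walk.length_reverse, hr]
    exact SimpleGraph.dist_comm
  have hbig : 2 * (v.lev + δ) + 8 ≤ 4 ^ κ := by omega
  refine ⟨x, xx (4 ^ κ) 0, xx (4 ^ κ) (rR (4 ^ κ)), p, q k, r.reverse, hp, hq k, hrev, h1, ?_⟩
  have hvx : (OO ω).Reachable v x := by
    obtain ⟨q1, q2, -⟩ := SimpleGraph.Walk.mem_support_iff_exists_append.1 h1
    exact q1.reachable.symm.trans rx1.symm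
  intro w hw
  rcases hw with hw | hw
  · have hxw : (OO ω).Reachable x w := by
      obtain ⟨q1, q2, -⟩ := SimpleGraph.Walk.mem_support_iff_exists_append.1 hw
      exact q1.reachable
    exact side_avoid hA hκ1 hBk hl2 isRay_rL isRay_rR (fun u hu => hu) hx
      (xx_pos (isRay_rL _).1) (xx_pos (isRay_rR _).1) (le_trans hb1 (Nat.le_add_right _ _)) hp
      hbig hw (hvx.trans hxw)
  · rw [SimpleGraph.Walk.support_reverse, List.mem_reverse] at hw
    have hxw : (OO ω).Reachable x w := by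
      obtain ⟨q1, q2, -⟩ := SimpleGraph.Walk.mem_support_iff_exists_append.1 hw
      exact q1.reachable
    exact side_avoid hA hκ1 hBk hl2 isRay_rR isRay_rL (fun u hu => hu.symm) hx
      (xx_pos (isRay_rR _).1) (xx_pos (isRay_rL _).1) hb2 hr hbig hw (hvx.trans hxw)

end Pool.Agent.FKHyp
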