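import Pool.Agent.FKHyp.Defs

/-! Finite volume estimates for the FK-Ising measure. -/

namespace Pool.Agent.FKHyp

open MeasureTheory Filter Topology

section Comp

variable {W : Type*}

theorem reach_cases {Γ Γ' : SimpleGraph W} {a b : W}
    (h : ∀ x y, Γ'.Adj x y → Γ.Adj x y ∨ (x = a ∧ y = b) ∨ (x = b ∧ y = a))
    {u v : W} (p : Γ'.Walk u v) :
    Γ.Reachable u v ∨ (Γ.Reachable u a ∧ Γ.Reachable b v) ∨
      (Γ.Reachable u b ∧ Γ.Reachable a v) := by
  induction p with
  | nil => left; exact SimpleGraph.Reachable.refl _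
  | @cons u w v hadj p ih =>
    rcases h u w hadj with h1 | ⟨rfl, rfl⟩ | ⟨rfl, rfl⟩
    · have huw : Γ.Reachable u w := h1.reachable
      rcases ih with ih | ⟨i1, i2⟩ | ⟨i1, i2⟩
      · left; exact huw.trans ih
      · right; left; exact ⟨huw.trans i1, i2⟩
      · right; right; exact ⟨huw.trans i1, i2⟩
    · rcases ih with ih | ⟨i1, i2⟩ | ⟨i1, i2⟩
      · right; left; exact ⟨SimpleGraph.Reachable.refl _, ih⟩
      · right; left; exact ⟨SimpleGraph.Reachable.refl _, i2⟩
      · left; exact i2
    · rcases ih with ih | ⟨i1, i2⟩ | ⟨i1, i2⟩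
      · right; right; exact ⟨SimpleGraph.Reachable.refl _, ih⟩
      · left; exact i2
      · right; right; exact ⟨SimpleGraph.Reachable.refl _, i2⟩

theorem card_comp_le [Finite W] {Γ Γ' : SimpleGraph W} (hle : Γ ≤ Γ') :
    Nat.card Γ'.ConnectedComponent ≤ Nat.card Γ.ConnectedComponent := by
  have hs : Function.Surjective
      (SimpleGraph.ConnectedComponent.map (SimpleGraph.Hom.ofLE hle)) := by
    intro C
    induction C using SimpleGraph.ConnectedComponent.ind with
    | h v => exact ⟨Γ.connectedComponentMk v, rfl⟩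
  exact Nat.card_le_card_of_surjective _ hs

theorem card_comp_ge [Finite W] {Γ Γ' : SimpleGraph W} {a b : W}
    (hle : Γ ≤ Γ')
    (h : ∀ x y, Γ'.Adj x y → Γ.Adj x y ∨ (x = a ∧ y = b) ∨ (x = b ∧ y = a)) :
    Nat.card Γ.ConnectedComponent ≤ Nat.card Γ'.ConnectedComponent + 1 := by
  classical
  let B : Γ.ConnectedComponent := Γ.connectedComponentMk b
  let f : Γ.ConnectedComponent → Option Γ'.ConnectedComponent := fun C =>
    if C = B then none else some (SimpleGraph.ConnectedComponent.map (SimpleGraph.Hom.ofLE hle) C)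
  have hf : Function.Injective f := by
    intro C1 C2 h12
    simp only [f] at h12
    by_cases h1 : C1 = B <;> by_cases h2 : C2 = B
    · rw [h1, h2]
    · simp [h1, h2] at h12
    · simp [h1, h2] at h12
    · rw [if_neg h1, if_neg h2, Option.some.injEq] at h12
      revert h1 h2 h12
      refine SimpleGraph.ConnectedComponent.ind₂ ?_ C1 C2
      intro u v h12 h1 h2
      have hr : Γ'.Reachable u v := by
        simpa [SimpleGraph.ConnectedComponent.map_mk] using h12
      obtain ⟨q⟩ := hr
      rcases reach_cases h q with h3 | ⟨_, h3⟩ | ⟨h3, _⟩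
      · exact SimpleGraph.ConnectedComponent.sound h3
      · exact absurd (SimpleGraph.ConnectedComponent.sound h3.symm) h2
      · exact absurd (SimpleGraph.ConnectedComponent.sound h3) h1
  have := Nat.card_le_card_of_injective f hf
  rwa [Finite.card_option] at this

end Comp

variable {V : Type*} {G : SimpleGraph V}

theorem numComp_insert (H : FinSub G) {e : Sym2 V} (he : e ∈ H.edges)
    [DecidableEq (Sym2 V)] (ω : Finset (Sym2 V)) :
    numComp H (insert e ω) ≤ numComp H ω ∧ numComp H ω ≤ numComp H (insert e ω) + 1 := by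
  unfold numComp
  have hle : (SimpleGraph.fromEdgeSet (ω : Set (Sym2 V))).induce (H.verts : Set V) ≤
      (SimpleGraph.fromEdgeSet ((insert e ω : Finset (Sym2 V)) : Set (Sym2 V))).induce
        (H.verts : Set V) := by
    intro x y hxy
    simp only [SimpleGraph.comap_adj, SimpleGraph.fromEdgeSet_adj, Function.Embedding.subtype_apply,
      Finset.coe_insert, Set.mem_insert_iff] at hxy ⊢
    exact ⟨Or.inr hxy.1, hxy.2⟩
  refine ⟨card_comp_le hle, ?_⟩
  induction e using Sym2.ind with
  | _ a b =>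
    have ha : a ∈ H.verts := H.ends _ he a (Sym2.mem_mk_left a b)
    have hb : b ∈ H.verts := H.ends _ he b (Sym2.mem_mk_right a b)
    refine card_comp_ge (a := ⟨a, ha⟩) (b := ⟨b, hb⟩) hle ?_
    intro x y hxy
    simp only [SimpleGraph.comap_adj, SimpleGraph.fromEdgeSet_adj, Function.Embedding.subtype_apply,
      Finset.coe_insert, Set.mem_insert_iff] at hxy ⊢
    rcases hxy with ⟨h1 | h1, h2⟩
    · right
      rw [Sym2.eq_iff] at h1
      rcases h1 with ⟨h3, h4⟩ | ⟨h3, h4⟩
      · left; exact ⟨Subtype.ext h3, Subtype.ext h4⟩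
      · right; exact ⟨Subtype.ext h3, Subtype.ext h4⟩
    · left; exact ⟨h1, h2⟩

theorem fkWeight_pos (H : FinSub G) {p : ℝ} (h0 : 0 < p) (h1 : p < 1) (ω : Finset (Sym2 V)) :
    0 < fkWeight H p ω := by
  unfold fkWeight
  have : 0 < 1 - p := by linarith
  positivity

theorem fkWeight_insert (H : FinSub G) {p : ℝ} (h0 : 0 < p) (h1 : p < 1)
    [DecidableEq (Sym2 V)] {e : Sym2 V} (he : e ∈ H.edges) {η : Finset (Sym2 V)}
    (hη : η ⊆ H.edges) (heη : e ∉ η) :
    fkWeight H p (insert e η) ≤ p * (fkWeight H p η + fkWeight H p (insert e η)) ∧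
    p / (2 - p) * (fkWeight H p η + fkWeight H p (insert e η)) ≤ fkWeight H p (insert e η) := by
  have hq : 0 < 1 - p := by linarith
  obtain ⟨hc1, hc2⟩ := numComp_insert H he η
  have hcard : (insert e η).card = η.card + 1 := Finset.card_insert_of_notMem heη
  have hlt : η.card + 1 ≤ H.edges.card := by
    rw [← hcard]
    exact Finset.card_le_card (Finset.insert_subset he hη)
  obtain ⟨m, hm⟩ : ∃ m, H.edges.card = η.card + 1 + m := ⟨_, (Nat.add_sub_cancel' hlt).symm⟩
  have hm1 : H.edges.card - η.card = m + 1 := by omega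
  have hm2 : H.edges.card - (insert e η).card = m := by omega
  set A : ℝ := p ^ η.card * (1 - p) ^ m with hA
  have hApos : 0 < A := by positivity
  have hw1 : fkWeight H p η = A * (1 - p) * 2 ^ numComp H η := by
    unfold fkWeight; rw [hm1, hA]; ring
  have hw2 : fkWeight H p (insert e η) = A * p * 2 ^ numComp H (insert e η) := by
    unfold fkWeight; rw [hm2, hcard, hA]; ring
  set k := numComp H η
  set k' := numComp H (insert e η)
  have hk1 : (2 : ℝ) ^ k' ≤ 2 ^ k := pow_le_pow_right₀ (by norm_num) hc1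
  have hk2 : (2 : ℝ) ^ k ≤ 2 * 2 ^ k' := by
    calc (2 : ℝ) ^ k ≤ 2 ^ (k' + 1) := pow_le_pow_right₀ (by norm_num) hc2
      _ = 2 * 2 ^ k' := by ring
  have hkpos : (0 : ℝ) < 2 ^ k' := by positivity
  rw [hw1, hw2]
  constructor
  · have : A * p * (1 - p) * 2 ^ k' ≤ A * p * (1 - p) * 2 ^ k :=
      mul_le_mul_of_nonneg_left hk1 (by positivity)
    nlinarith
  · have h2p : 0 < 2 - p := by linarith
    rw [div_mul_eq_mul_div, div_le_iff₀ h2p]
    have : A * p * (1 - p) * 2 ^ k ≤ A * p * (1 - p) * (2 * 2 ^ k') :=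
      mul_le_mul_of_nonneg_left hk2 (by positivity)
    nlinarith

/-- weighted sum -/
noncomputable def wsum (H : FinSub G) (p : ℝ) (f : Finset (Sym2 V) → ℝ) : ℝ :=
  ∑ ω ∈ H.edges.powerset, fkWeight H p ω * f ω

theorem wsum_split (H : FinSub G) (p : ℝ) [DecidableEq (Sym2 V)] {e : Sym2 V} (he : e ∈ H.edges)
    (f : Finset (Sym2 V) → ℝ) :
    wsum H p f = ∑ η ∈ (H.edges.erase e).powerset,
      (fkWeight H p η * f η + fkWeight H p (insert e η) * f (insert e η)) := by
  unfold wsum
  have h1 : H.edges = insert e (H.edges.erase e) := (Finset.insert_erase he).symm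
  conv_lhs => rw [h1]
  rw [Finset.sum_powerset_insert (Finset.notMem_erase e _), ← Finset.sum_add_distrib]

theorem wsum_nonneg (H : FinSub G) {p : ℝ} (h0 : 0 < p) (h1 : p < 1)
    {f : Finset (Sym2 V) → ℝ} (hf : ∀ ω, 0 ≤ f ω) : 0 ≤ wsum H p f :=
  Finset.sum_nonneg fun ω _ => mul_nonneg (fkWeight_pos H h0 h1 ω).le (hf ω)

/-- flipping one edge -/
theorem wsum_flip (H : FinSub G) {p : ℝ} (h0 : 0 < p) (h1 : p < 1) [DecidableEq (Sym2 V)]
    {e : Sym2 V} (he : e ∈ H.edges) {f : Finset (Sym2 V) → ℝ} (hf : ∀ ω, 0 ≤ f ω)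
    (hfe : ∀ ω, f (insert e ω) = f ω) :
    wsum H p (fun ω => if e ∈ ω then f ω else 0) ≤ p * wsum H p f ∧
    p / (2 - p) * wsum H p f ≤ wsum H p (fun ω => if e ∈ ω then f ω else 0) := by
  rw [wsum_split H p he, wsum_split H p he, Finset.mul_sum, Finset.mul_sum]
  have key : ∀ η ∈ (H.edges.erase e).powerset, η ⊆ H.edges ∧ e ∉ η := by
    intro η hη
    rw [Finset.mem_powerset] at hη
    exact ⟨hη.trans (Finset.erase_subset _ _), fun h => Finset.notMem_erase e _ (hη h)⟩
  constructor
  · apply Finset.sum_le_sum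
    intro η hη
    obtain ⟨hη1, hη2⟩ := key η hη
    rw [if_neg hη2, if_pos (Finset.mem_insert_self e η), hfe]
    have := (fkWeight_insert H h0 h1 he hη1 hη2).1
    have := mul_le_mul_of_nonneg_right this (hf η)
    linarith
  · apply Finset.sum_le_sum
    intro η hη
    obtain ⟨hη1, hη2⟩ := key η hη
    rw [if_neg hη2, if_pos (Finset.mem_insert_self e η), hfe]
    have := (fkWeight_insert H h0 h1 he hη1 hη2).2
    have := mul_le_mul_of_nonneg_right this (hf η)
    linarith

theorem wsum_open_le (H : FinSub G) {p : ℝ} (h0 : 0 < p) (h1 : p < 1) [DecidableEq (Sym2 V)]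
    (W : Finset (Sym2 V)) (hW : W ⊆ H.edges) :
    wsum H p (fun ω => if W ⊆ ω then 1 else 0) ≤ p ^ W.card * wsum H p (fun _ => 1) := by
  induction W using Finset.induction_on with
  | empty => simp
  | insert e W heW ih =>
    have he : e ∈ H.edges := hW (Finset.mem_insert_self e W)
    have hW' : W ⊆ H.edges := (Finset.subset_insert e W).trans hW
    have hflip := (wsum_flip H h0 h1 he (f := fun ω => if W ⊆ ω then 1 else 0)
      (fun ω => by positivity) (fun ω => by
        have : W ⊆ insert e ω ↔ W ⊆ ω := by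
          constructor
          · intro h x hx
            rcases Finset.mem_insert.1 (h hx) with h2 | h2
            · exact absurd (h2 ▸ hx) heW
            · exact h2
          · intro h; exact h.trans (Finset.subset_insert e ω)
        simp only [this])).1
    have heq : (fun ω : Finset (Sym2 V) => if insert e W ⊆ ω then (1 : ℝ) else 0) =
        fun ω => if e ∈ ω then (if W ⊆ ω then (1 : ℝ) else 0) else 0 := by
      funext ω
      by_cases h2 : e ∈ ω <;> by_cases h3 : W ⊆ ω <;> simp [Finset.insert_subset_iff, h2, h3]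
    rw [heq, Finset.card_insert_of_notMem heW]
    calc _ ≤ p * wsum H p (fun ω => if W ⊆ ω then 1 else 0) := hflip
      _ ≤ p * (p ^ W.card * wsum H p (fun _ => 1)) :=
        mul_le_mul_of_nonneg_left (ih hW') h0.le
      _ = _ := by ring

theorem wsum_open_ge (H : FinSub G) {p : ℝ} (h0 : 0 < p) (h1 : p < 1) [DecidableEq (Sym2 V)]
    (S : Finset (Sym2 V)) (hS : S ⊆ H.edges) {g : Finset (Sym2 V) → ℝ} (hg : ∀ ω, 0 ≤ g ω)
    (hgS : ∀ e ∈ S, ∀ ω, g (insert e ω) = g ω) :
    (p / (2 - p)) ^ S.card * wsum H p g ≤ wsum H p (fun ω => if S ⊆ ω then g ω else 0) := by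
  induction S using Finset.induction_on with
  | empty => simp
  | insert e S heS ih =>
    have he : e ∈ H.edges := hS (Finset.mem_insert_self e S)
    have hS' : S ⊆ H.edges := (Finset.subset_insert e S).trans hS
    have hflip := (wsum_flip H h0 h1 he (f := fun ω => if S ⊆ ω then g ω else 0)
      (fun ω => by
        by_cases h : S ⊆ ω
        · simp only [h, if_true]; exact hg ω
        · simp only [h, if_false]; exact le_rfl)
      (fun ω => by
        have : S ⊆ insert e ω ↔ S ⊆ ω := by
          constructor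
          · intro h x hx
            rcases Finset.mem_insert.1 (h hx) with h2 | h2
            · exact absurd (h2 ▸ hx) heS
            · exact h2
          · intro h; exact h.trans (Finset.subset_insert e ω)
        simp only [this, hgS e (Finset.mem_insert_self e S) ω])).2
    have heq : (fun ω : Finset (Sym2 V) => if insert e S ⊆ ω then g ω else 0) =
        fun ω => if e ∈ ω then (if S ⊆ ω then g ω else 0) else 0 := by
      funext ω
      by_cases h2 : e ∈ ω <;> by_cases h3 : S ⊆ ω <;> simp [Finset.insert_subset_iff, h2, h3]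
    have hp2 : 0 ≤ p / (2 - p) := div_nonneg h0.le (by linarith)
    rw [heq, Finset.card_insert_of_notMem heS]
    calc _ = p / (2 - p) * ((p / (2 - p)) ^ S.card * wsum H p g) := by ring
      _ ≤ p / (2 - p) * wsum H p (fun ω => if S ⊆ ω then g ω else 0) :=
        mul_le_mul_of_nonneg_left
          (ih hS' (fun e' he' ω => hgS e' (Finset.mem_insert_of_mem he') ω)) hp2
      _ ≤ _ := hflip

theorem wsum_closed_le (H : FinSub G) {p : ℝ} (h0 : 0 < p) (h1 : p < 1) [DecidableEq (Sym2 V)]
    {ι : Type*} (I : Finset ι) (S : ι → Finset (Sym2 V)) (hS : ∀ i ∈ I, S i ⊆ H.edges)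
    (hcard : ∀ i ∈ I, (S i).card ≤ 2)
    (hdisj : ∀ i ∈ I, ∀ j ∈ I, i ≠ j → Disjoint (S i) (S j)) :
    wsum H p (fun ω => if ∀ i ∈ I, ¬ S i ⊆ ω then 1 else 0) ≤
      (1 - (p / (2 - p)) ^ 2) ^ I.card * wsum H p (fun _ => 1) := by
  classical
  induction I using Finset.induction_on with
  | empty => simp
  | insert i I hiI ih =>
    have hp2 : 0 ≤ p / (2 - p) := div_nonneg h0.le (by linarith)
    have hp1 : p / (2 - p) ≤ 1 := by rw [div_le_one (by linarith)]; linarith
    have hp3 : 0 ≤ 1 - (p / (2 - p)) ^ 2 := by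
      have : (p / (2 - p)) ^ 2 ≤ 1 := pow_le_one₀ hp2 hp1
      linarith
    set g : Finset (Sym2 V) → ℝ := fun ω => if ∀ j ∈ I, ¬ S j ⊆ ω then 1 else 0 with hg
    have hg0 : ∀ ω, 0 ≤ g ω := fun ω => by
      simp only [hg]; split_ifs <;> norm_num
    have hgS : ∀ e ∈ S i, ∀ ω, g (insert e ω) = g ω := by
      intro e he ω
      have : (∀ j ∈ I, ¬ S j ⊆ insert e ω) ↔ (∀ j ∈ I, ¬ S j ⊆ ω) := by
        have key : ∀ j ∈ I, (S j ⊆ insert e ω ↔ S j ⊆ ω) := by
          intro j hj
          have hne : i ≠ j := fun h => hiI (h ▸ hj)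
          have hd := hdisj i (Finset.mem_insert_self i I) j (Finset.mem_insert_of_mem hj) hne
          have hej : e ∉ S j := fun h => (Finset.disjoint_left.1 hd) he h
          constructor
          · intro h x hx
            rcases Finset.mem_insert.1 (h hx) with h2 | h2
            · exact absurd (h2 ▸ hx) hej
            · exact h2
          · intro h; exact h.trans (Finset.subset_insert e ω)
        constructor
        · intro h j hj hc; exact h j hj ((key j hj).2 hc)
        · intro h j hj hc; exact h j hj ((key j hj).1 hc)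
      simp only [hg, this]
    have hge := wsum_open_ge H h0 h1 (S i) (hS i (Finset.mem_insert_self i I)) hg0 hgS
    have hsum : wsum H p (fun ω => if ∀ j ∈ insert i I, ¬ S j ⊆ ω then 1 else 0) =
        wsum H p g - wsum H p (fun ω => if S i ⊆ ω then g ω else 0) := by
      unfold wsum
      rw [← Finset.sum_sub_distrib]
      apply Finset.sum_congr rfl
      intro ω _
      rw [← mul_sub]
      congr 1
      simp only [hg, Finset.forall_mem_insert]
      by_cases h2 : S i ⊆ ω <;> by_cases h3 : ∀ j ∈ I, ¬ S j ⊆ ω <;> simp [h2, h3]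
    have hpow : (p / (2 - p)) ^ 2 ≤ (p / (2 - p)) ^ (S i).card :=
      pow_le_pow_of_le_one hp2 hp1 (hcard i (Finset.mem_insert_self i I))
    have hw0 : 0 ≤ wsum H p g := wsum_nonneg H h0 h1 hg0
    have ih' := ih (fun j hj => hS j (Finset.mem_insert_of_mem hj))
      (fun j hj => hcard j (Finset.mem_insert_of_mem hj))
      (fun j hj k hk hjk => hdisj j (Finset.mem_insert_of_mem hj) k
        (Finset.mem_insert_of_mem hk) hjk)
    rw [hsum, Finset.card_insert_of_notMem hiI]
    calc wsum H p g - wsum H p (fun ω => if S i ⊆ ω then g ω else 0)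
        ≤ wsum H p g - (p / (2 - p)) ^ (S i).card * wsum H p g := by linarith
      _ ≤ (1 - (p / (2 - p)) ^ 2) * wsum H p g := by nlinarith
      _ ≤ (1 - (p / (2 - p)) ^ 2) *
          ((1 - (p / (2 - p)) ^ 2) ^ I.card * wsum H p (fun _ => 1)) :=
        mul_le_mul_of_nonneg_left ih' hp3
      _ = _ := by ring

theorem wsum_one_pos (H : FinSub G) {p : ℝ} (h0 : 0 < p) (h1 : p < 1) :
    0 < wsum H p (fun _ => 1) := by
  unfold wsum
  apply Finset.sum_pos
  · intro ω _
    rw [mul_one]
    exact fkWeight_pos H h0 h1 ω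
  · exact ⟨∅, Finset.empty_mem_powerset _⟩

theorem fkExp_eq (H : FinSub G) (p : ℝ) (f : Config V → ℝ) :
    fkExp H p f = wsum H p (fun ω => f (toConfig ω)) / wsum H p (fun _ => 1) := by
  unfold fkExp wsum
  simp only [mul_one]

end Pool.Agent.FKHyp
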