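import Pool.Agent.FKHyp.Heap

/-! The heap graph with clones: basic properties and hyperbolicity. -/

namespace Pool.Agent.FKHyp

/-- strong heap vertices: the two boundary rays and the levels `4 ^ k` -/
def Strong (n i : ℕ) : Prop := i = 0 ∨ i + 1 = 2 ^ n ∨ ∃ k, 1 ≤ k ∧ n = 4 ^ k

open Classical in
/-- number of clones -/
noncomputable def mult (n i : ℕ) : ℕ := if Strong n i then 2 ^ n else 1

theorem mult_pos (n i : ℕ) : 0 < mult n i := by
  unfold mult
  split_ifs <;> positivity

theorem mult_strong {n i : ℕ} (h : Strong n i) : mult n i = 2 ^ n := by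
  unfold mult
  rw [if_pos h]

theorem mult_weak {n i : ℕ} (h : ¬ Strong n i) : mult n i = 1 := by
  unfold mult
  rw [if_neg h]

/-- vertices of the graph -/
@[ext]
structure Vert where
  /-- level -/
  lev : ℕ
  /-- index in the level -/
  idx : ℕ
  /-- clone number -/
  cl : ℕ
  hidx : idx < 2 ^ lev
  hcl : cl < mult lev idx

namespace Vert

/-- position in the heap -/
def pos (x : Vert) : ℕ × ℕ := (x.lev, x.idx)

theorem hpos (x : Vert) : x.pos.2 < 2 ^ x.pos.1 := x.hidx

/-- canonical vertex over a heap position -/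
def mk0 (n i : ℕ) (h : i < 2 ^ n) : Vert := ⟨n, i, 0, h, mult_pos n i⟩

end Vert

open Vert

/-- the graph -/
def GG : SimpleGraph Vert where
  Adj x y := HAdj x.pos y.pos
  symm := ⟨fun _ _ h => h.symm⟩
  loopless := ⟨fun _ h => h.ne rfl⟩

theorem GG_adj {x y : Vert} : GG.Adj x y ↔ HAdj x.pos y.pos := Iff.rfl

theorem toTriple_injective :
    Function.Injective (fun x : Vert => ((x.lev, x.idx, x.cl) : ℕ × ℕ × ℕ)) := by
  intro x y h
  simp only [Prod.mk.injEq] at h
  exact Vert.ext h.1 h.2.1 h.2.2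

instance : Countable Vert := toTriple_injective.countable

instance : Nonempty Vert := ⟨mk0 0 0 (by norm_num)⟩

theorem finite_lev_le (n : ℕ) : {x : Vert | x.lev ≤ n}.Finite := by
  have hfin : (Set.Iic n ×ˢ (Set.Iio (2 ^ n) ×ˢ Set.Iio (2 ^ n)) : Set (ℕ × ℕ × ℕ)).Finite :=
    (Set.finite_Iic n).prod ((Set.finite_Iio _).prod (Set.finite_Iio _))
  refine Set.Finite.of_finite_image (f := fun x : Vert => ((x.lev, x.idx, x.cl) : ℕ × ℕ × ℕ))
    (hfin.subset ?_) (toTriple_injective.injOn)
  rintro _ ⟨x, hx, rfl⟩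
  have hx' : x.lev ≤ n := hx
  have hp : 2 ^ x.lev ≤ 2 ^ n := Nat.pow_le_pow_right (by norm_num) hx'
  have h1 := x.hidx
  have h2 := x.hcl
  have h3 : mult x.lev x.idx ≤ 2 ^ x.lev := by
    unfold mult
    split_ifs
    · exact le_rfl
    · exact Nat.one_le_two_pow
  simp only [Set.mem_prod, Set.mem_Iic, Set.mem_Iio]
  exact ⟨hx', by omega, by omega⟩

theorem adj_lev {x y : Vert} (h : GG.Adj x y) : y.lev ≤ x.lev + 1 ∧ x.lev ≤ y.lev + 1 := by
  have h' : HAdj x.pos y.pos := h
  unfold HAdj pos at h'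
  simp only at h'
  omega

theorem locally_finite (x : Vert) : (GG.neighborSet x).Finite :=
  (finite_lev_le (x.lev + 1)).subset fun _ hy => (adj_lev hy).1

instance : Infinite Vert := by
  refine Infinite.of_injective (fun n : ℕ => mk0 n 0 (by positivity)) ?_
  intro n m h
  exact congrArg Vert.lev h

/-- there is a walk of length at most `k` -/
def Wk {V : Type*} (G : SimpleGraph V) (k : ℕ) (a b : V) : Prop :=
  ∃ p : G.Walk a b, p.length ≤ k

theorem Wk.trans {V : Type*} {G : SimpleGraph V} {k l : ℕ} {a b c : V} (h1 : Wk G k a b)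
    (h2 : Wk G l b c) : Wk G (k + l) a c := by
  obtain ⟨p, hp⟩ := h1
  obtain ⟨q, hq⟩ := h2
  exact ⟨p.append q, by rw [SimpleGraph.Walk.length_append]; omega⟩

theorem Wk.symm {V : Type*} {G : SimpleGraph V} {k : ℕ} {a b : V} (h1 : Wk G k a b) :
    Wk G k b a := by
  obtain ⟨p, hp⟩ := h1
  exact ⟨p.reverse, by rw [SimpleGraph.Walk.length_reverse]; exact hp⟩

theorem Wk.refl {V : Type*} {G : SimpleGraph V} {k : ℕ} (a : V) : Wk G k a a :=
  ⟨SimpleGraph.Walk.nil, by simp⟩

theorem Wk.of_adj {V : Type*} {G : SimpleGraph V} {a b : V} (h : G.Adj a b) :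
    Wk G 1 a b :=
  ⟨SimpleGraph.Walk.cons h SimpleGraph.Walk.nil, by simp⟩

theorem Wk.mono {V : Type*} {G : SimpleGraph V} {k l : ℕ} {a b : V} (h1 : Wk G k a b)
    (h : k ≤ l) : Wk G l a b := by
  obtain ⟨p, hp⟩ := h1
  exact ⟨p, hp.trans h⟩

theorem Wk.dist_le {V : Type*} {G : SimpleGraph V} {k : ℕ} {a b : V} (h1 : Wk G k a b) :
    G.dist a b ≤ k := by
  obtain ⟨p, hp⟩ := h1
  exact (SimpleGraph.dist_le p).trans hp

theorem Wk.reachable {V : Type*} {G : SimpleGraph V} {k : ℕ} {a b : V} (h1 : Wk G k a b) :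
    G.Reachable a b := by
  obtain ⟨p, hp⟩ := h1
  exact p.reachable

theorem same_pos {a b : Vert} (h : a.pos = b.pos) : Wk GG 2 a b := by
  have hlt : 2 * a.idx < 2 ^ (a.lev + 1) := by
    rw [pow_succ']; have := a.hidx; omega
  let c : Vert := mk0 (a.lev + 1) (2 * a.idx) hlt
  have h1 : GG.Adj a c := by
    rw [GG_adj]; left
    simp [pos, c, mk0]
  have h2 : GG.Adj b c := by
    rw [GG_adj, ← h]; exact h1
  exact (Wk.of_adj h1).trans (Wk.of_adj h2).symm

theorem up_walk (s : ℕ) : ∀ (a : Vert) (n : ℕ) (hs : a.lev = n + s)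
    (h : a.idx / 2 ^ s < 2 ^ n), Wk GG (s + 2) a (mk0 n (a.idx / 2 ^ s) h) := by
  induction s with
  | zero =>
    intro a n hs h
    apply same_pos
    simp only [pos, mk0, pow_zero, Nat.div_one]
    rw [hs]
    rfl
  | succ s ih =>
    intro a n hs h
    have hb : a.idx / 2 ^ s < 2 ^ (n + 1) := by
      have := a.hidx
      rw [Nat.div_lt_iff_lt_mul (by positivity), ← pow_add]
      rw [hs] at this
      have e : n + 1 + s = n + (s + 1) := by omega
      rw [e]
      exact this
    have h1 := ih a (n + 1) (by omega) hb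
    have h2 : GG.Adj (mk0 (n + 1) (a.idx / 2 ^ s) hb) (mk0 n (a.idx / 2 ^ (s + 1)) h) := by
      rw [GG_adj]; right; left
      simp only [pos, mk0, true_and]
      rw [Nat.div_div_eq_div_mul, ← pow_succ]
    exact (h1.trans (Wk.of_adj h2)).mono (by omega)

theorem up_walk' (a : Vert) (t : ℕ) (ht : t ≤ a.lev) (h : anc t a.pos < 2 ^ t) :
    Wk GG (a.lev - t + 2) a (mk0 t (anc t a.pos) h) :=
  up_walk (a.lev - t) a t (by omega) h

theorem anc_lt {a : ℕ × ℕ} (ha : a.2 < 2 ^ a.1) {t : ℕ} (ht : t ≤ a.1) : anc t a < 2 ^ t := by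
  unfold anc
  rw [Nat.div_lt_iff_lt_mul (by positivity), ← pow_add]
  have e : t + (a.1 - t) = a.1 := by omega
  rw [e]
  exact ha

theorem dist_upper (a b : Vert) :
    Wk GG ((a.lev - tst a.pos b.pos) + (b.lev - tst a.pos b.pos) + 5) a b := by
  obtain ⟨h1, h2⟩ := tst_le a.pos b.pos
  have hD := tst_spec a.hpos b.hpos
  set t := tst a.pos b.pos
  have ha := up_walk' a t h1 (anc_lt a.hpos h1)
  have hb := up_walk' b t h2 (anc_lt b.hpos h2)
  have hab : Wk GG 1 (mk0 t (anc t a.pos) (anc_lt a.hpos h1))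
      (mk0 t (anc t b.pos) (anc_lt b.hpos h2)) := by
    by_cases he : anc t a.pos = anc t b.pos
    · have : mk0 t (anc t a.pos) (anc_lt a.hpos h1) = mk0 t (anc t b.pos) (anc_lt b.hpos h2) := by
        simp only [mk0, he]
      rw [this]
      exact Wk.refl _
    · apply Wk.of_adj
      rw [GG_adj]; right; right
      simp only [pos, mk0, true_and]
      unfold D at hD
      simp only [pos] at hD he
      omega
  exact ((ha.trans hab).trans hb.symm).mono (by omega)

theorem GG_connected : GG.Connected := by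
  rw [SimpleGraph.connected_iff]
  exact ⟨fun a b => (dist_upper a b).reachable, inferInstance⟩

theorem dist_lower (a b : Vert) :
    a.lev + b.lev ≤ GG.dist a b + 2 * tst a.pos b.pos + 1 := by
  obtain ⟨P, hP⟩ := GG_connected.exists_walk_length_eq_dist a b
  rw [← hP]
  exact length_ge pos (fun _ _ h => h) P

theorem fourPoint : FourPoint GG 16 := by
  intro x y z w
  have u1 := (dist_upper x y).dist_le
  have u2 := (dist_upper z w).dist_le
  have l1 := dist_lower x z
  have l2 := dist_lower y w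
  have l3 := dist_lower x w
  have l4 := dist_lower y z
  have hf := tst_four x.hpos y.hpos z.hpos w.hpos
  have a1 := tst_le x.pos y.pos
  have a2 := tst_le z.pos w.pos
  have e1 : x.pos.1 = x.lev := rfl
  have e2 : y.pos.1 = y.lev := rfl
  have e3 : z.pos.1 = z.lev := rfl
  have e4 : w.pos.1 = w.lev := rfl
  omega

theorem GG_hyperbolic : GromovHyperbolic GG := hyperbolic_of_fourPoint fourPoint

end Pool.Agent.FKHyp
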