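import Pool.Agent.FKHyp.Hyp

/-! The heap graph with clones, and its hyperbolicity. -/

namespace Pool.Agent.FKHyp

/-- adjacency of (level, index) pairs in the binary heap graph -/
def HAdj (a b : ℕ × ℕ) : Prop :=
  (b.1 = a.1 + 1 ∧ b.2 / 2 = a.2) ∨ (a.1 = b.1 + 1 ∧ a.2 / 2 = b.2) ∨
  (a.1 = b.1 ∧ (b.2 = a.2 + 1 ∨ a.2 = b.2 + 1))

theorem HAdj.symm {a b : ℕ × ℕ} (h : HAdj a b) : HAdj b a := by
  unfold HAdj at *
  omega

theorem HAdj.ne {a b : ℕ × ℕ} (h : HAdj a b) : a ≠ b := by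
  rintro rfl
  unfold HAdj at h
  omega

/-- distance of two natural numbers -/
def D (x y : ℕ) : ℕ := (x - y) + (y - x)

/-- ancestor index at level `t` -/
def anc (t : ℕ) (a : ℕ × ℕ) : ℕ := a.2 / 2 ^ (a.1 - t)

theorem anc_succ {t : ℕ} {a : ℕ × ℕ} (h : t + 1 ≤ a.1) : anc t a = anc (t + 1) a / 2 := by
  unfold anc
  rw [Nat.div_div_eq_div_mul, ← pow_succ]
  congr 2
  omega

theorem anc_self (a : ℕ × ℕ) : anc a.1 a = a.2 := by
  unfold anc
  simp

theorem anc_child {t : ℕ} {a b : ℕ × ℕ} (h1 : b.1 = a.1 + 1) (h2 : b.2 / 2 = a.2) (ht : t ≤ a.1) :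
    anc t b = anc t a := by
  unfold anc
  rw [h1, ← h2, Nat.div_div_eq_div_mul]
  congr 1
  rw [← pow_succ']
  congr 1
  omega

theorem anc_horiz {t : ℕ} {a b : ℕ × ℕ} (h1 : a.1 = b.1)
    (h2 : b.2 = a.2 + 1 ∨ a.2 = b.2 + 1) : D (anc t a) (anc t b) ≤ 1 := by
  have key : ∀ x m : ℕ, 0 < m → x / m ≤ (x + 1) / m ∧ (x + 1) / m ≤ x / m + 1 := by
    intro x m hm
    refine ⟨Nat.div_le_div_right (Nat.le_succ x), ?_⟩
    rw [← Nat.add_div_right x hm]
    exact Nat.div_le_div_right (by omega)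
  unfold anc D
  rw [h1]
  have hpos : 0 < 2 ^ (b.1 - t) := by positivity
  rcases h2 with h2 | h2
  · rw [h2]
    have := key a.2 _ hpos
    omega
  · rw [h2]
    have := key b.2 _ hpos
    omega

theorem walk_lemma {U : Type*} {Q : SimpleGraph U} (π : U → ℕ × ℕ)
    (hπ : ∀ u v, Q.Adj u v → HAdj (π u) (π v)) {a b : U} (P : Q.Walk a b) :
    ∃ c ∈ P.support, (π c).1 ≤ (π a).1 ∧ (π c).1 ≤ (π b).1 ∧
      ((π a).1 - (π c).1) + ((π b).1 - (π c).1) + D (anc (π c).1 (π a)) (anc (π c).1 (π b)) ≤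
        P.length := by
  induction P with
  | @nil u =>
    refine ⟨u, by simp, le_rfl, le_rfl, ?_⟩
    unfold D; simp
  | @cons a a' b hadj P ih =>
    obtain ⟨c, hc, h1, h2, h3⟩ := ih
    have hc' : c ∈ (SimpleGraph.Walk.cons hadj P).support := by
      rw [SimpleGraph.Walk.support_cons]; exact List.mem_cons_of_mem _ hc
    rw [SimpleGraph.Walk.length_cons]
    have hh := hπ _ _ hadj
    rcases hh with ⟨hl, hi⟩ | ⟨hl, hi⟩ | ⟨hl, hi⟩
    · -- `a'` is a child of `a`
      by_cases hca : (π c).1 ≤ (π a).1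
      · refine ⟨c, hc', hca, h2, ?_⟩
        rw [anc_child hl hi hca] at h3
        omega
      · have hcl : (π c).1 = (π a).1 + 1 := by omega
        refine ⟨a, by simp, le_rfl, by omega, ?_⟩
        rw [hcl] at h3 h2
        have e1 : anc ((π a).1 + 1) (π a') = (π a').2 := by rw [← hl]; exact anc_self _
        have e2 : anc (π a).1 (π a) = (π a).2 := anc_self _
        have e3 : anc (π a).1 (π b) = anc ((π a).1 + 1) (π b) / 2 := anc_succ h2
        rw [e1] at h3
        rw [e2, e3, ← hi]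
        unfold D at *
        omega
    · -- `a'` is the parent of `a`
      refine ⟨c, hc', by omega, h2, ?_⟩
      rw [anc_child hl hi h1]
      omega
    · have hd := anc_horiz (t := (π c).1) hl hi
      refine ⟨c, hc', by omega, h2, ?_⟩
      unfold D at *
      omega

/-- first common level up to distance one -/
noncomputable def tst (a b : ℕ × ℕ) : ℕ := by
  classical
  exact Nat.findGreatest (fun t => D (anc t a) (anc t b) ≤ 1) (min a.1 b.1)

theorem tst_le (a b : ℕ × ℕ) : tst a b ≤ a.1 ∧ tst a b ≤ b.1 := by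
  classical
  have : tst a b ≤ min a.1 b.1 := Nat.findGreatest_le _
  omega

theorem anc_zero {a : ℕ × ℕ} (h : a.2 < 2 ^ a.1) : anc 0 a = 0 := by
  unfold anc
  rw [Nat.sub_zero]
  exact Nat.div_eq_of_lt h

theorem tst_spec {a b : ℕ × ℕ} (ha : a.2 < 2 ^ a.1) (hb : b.2 < 2 ^ b.1) :
    D (anc (tst a b) a) (anc (tst a b) b) ≤ 1 := by
  classical
  refine Nat.findGreatest_spec (P := fun t => D (anc t a) (anc t b) ≤ 1) (m := 0)
    (Nat.zero_le _) ?_
  rw [anc_zero ha, anc_zero hb]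
  unfold D; simp

theorem tst_greatest {a b : ℕ × ℕ} {t : ℕ} (h1 : t ≤ a.1) (h2 : t ≤ b.1)
    (h : D (anc t a) (anc t b) ≤ 1) : t ≤ tst a b := by
  classical
  exact Nat.le_findGreatest (P := fun t => D (anc t a) (anc t b) ≤ 1) (by omega) h

theorem D_half (x y : ℕ) : D (x / 2) (y / 2) ≤ D x y ∧ D x y ≤ 2 * D (x / 2) (y / 2) + 1 ∧
    2 * D (x / 2) (y / 2) ≤ D x y + 1 := by
  unfold D; omega

theorem anc_le_of_le {a b : ℕ × ℕ} {t s : ℕ} (hts : t ≤ s) (h1 : s ≤ a.1) (h2 : s ≤ b.1) :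
    D (anc t a) (anc t b) ≤ D (anc s a) (anc s b) := by
  induction s, hts using Nat.le_induction with
  | base => exact le_rfl
  | succ s hs ih =>
    have := ih (by omega) (by omega)
    have h := (D_half (anc (s + 1) a) (anc (s + 1) b)).1
    rw [← anc_succ h1, ← anc_succ h2] at h
    omega

theorem D_grow {a b : ℕ × ℕ} (j : ℕ) (hj : tst a b + (j + 1) ≤ a.1)
    (hj2 : tst a b + (j + 1) ≤ b.1) :
    2 ≤ D (anc (tst a b + (j + 1)) a) (anc (tst a b + (j + 1)) b) ∧
    2 * (j + 1) ≤ D (anc (tst a b + (j + 1)) a) (anc (tst a b + (j + 1)) b) + 1 := by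
  induction j with
  | zero =>
    have h : ¬ D (anc (tst a b + (0 + 1)) a) (anc (tst a b + (0 + 1)) b) ≤ 1 := by
      intro h
      have := tst_greatest (by omega) (by omega) h
      omega
    omega
  | succ j ih =>
    have ih' := ih (by omega) (by omega)
    have h := (D_half (anc (tst a b + (j + 1) + 1) a) (anc (tst a b + (j + 1) + 1) b)).2.2
    rw [← anc_succ (by omega), ← anc_succ (by omega)] at h
    have e : tst a b + (j + 1 + 1) = tst a b + (j + 1) + 1 := by omega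
    rw [e]
    omega

/-- lower bound for the length of a walk -/
theorem length_ge {U : Type*} {Q : SimpleGraph U} (π : U → ℕ × ℕ)
    (hπ : ∀ u v, Q.Adj u v → HAdj (π u) (π v)) {a b : U} (P : Q.Walk a b) :
    (π a).1 + (π b).1 ≤ P.length + 2 * tst (π a) (π b) + 1 := by
  obtain ⟨c, -, h1, h2, h3⟩ := walk_lemma π hπ P
  by_cases hc : (π c).1 ≤ tst (π a) (π b)
  · have := tst_le (π a) (π b)
    omega
  · obtain ⟨j, hj⟩ : ∃ j, (π c).1 = tst (π a) (π b) + (j + 1) :=
      ⟨(π c).1 - tst (π a) (π b) - 1, by omega⟩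
    have hg := D_grow (a := π a) (b := π b) j (by omega) (by omega)
    rw [← hj] at hg
    omega

theorem D_comm (x y : ℕ) : D x y = D y x := by
  unfold D; omega

theorem tst_comm (a b : ℕ × ℕ) : tst a b = tst b a := by
  unfold tst
  rw [min_comm]
  congr 1
  funext t
  rw [D_comm]

theorem tst_triple {x y z : ℕ × ℕ} (hx : x.2 < 2 ^ x.1) (hy : y.2 < 2 ^ y.1)
    (hz : z.2 < 2 ^ z.1) : min (tst x y) (tst y z) ≤ tst x z + 1 := by
  rcases Nat.eq_zero_or_pos (min (tst x y) (tst y z)) with h0 | hpos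
  · omega
  obtain ⟨s, hs⟩ : ∃ s, min (tst x y) (tst y z) = s + 1 :=
    ⟨min (tst x y) (tst y z) - 1, by omega⟩
  have a1 := tst_le x y
  have a2 := tst_le y z
  have b1 : s + 1 ≤ tst x y := by omega
  have b2 : s + 1 ≤ tst y z := by omega
  have h1 : D (anc (s + 1) x) (anc (s + 1) y) ≤ 1 :=
    (anc_le_of_le b1 a1.1 a1.2).trans (tst_spec hx hy)
  have h2 : D (anc (s + 1) y) (anc (s + 1) z) ≤ 1 :=
    (anc_le_of_le b2 a2.1 a2.2).trans (tst_spec hy hz)
  have h3 : D (anc s x) (anc s z) ≤ 1 := by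
    have e1 : anc s x = anc (s + 1) x / 2 := anc_succ (by omega)
    have e2 : anc s z = anc (s + 1) z / 2 := anc_succ (by omega)
    rw [e1, e2]
    clear a1 a2 b1 b2 hs hpos e1 e2
    unfold D at *
    omega
  have := tst_greatest (a := x) (b := z) (by omega) (by omega) h3
  omega

theorem tst_four {x y z w : ℕ × ℕ} (hx : x.2 < 2 ^ x.1) (hy : y.2 < 2 ^ y.1)
    (hz : z.2 < 2 ^ z.1) (hw : w.2 < 2 ^ w.1) :
    min (tst x z + tst y w) (tst x w + tst y z) ≤ tst x y + tst z w + 2 := by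
  have c1 := tst_comm y x
  have c2 := tst_comm z x
  have c3 := tst_comm w x
  have c4 := tst_comm z y
  have c5 := tst_comm w y
  have c6 := tst_comm w z
  have t1 := tst_triple hx hz hy
  have t2 := tst_triple hx hw hy
  have t3 := tst_triple hz hx hw
  have t4 := tst_triple hz hy hw
  have t5 := tst_triple hx hy hz
  have t6 := tst_triple hx hw hz
  have t7 := tst_triple hx hy hw
  have t8 := tst_triple hx hz hw
  have t9 := tst_triple hy hx hz
  have t10 := tst_triple hy hw hz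
  have t11 := tst_triple hy hx hw
  have t12 := tst_triple hy hz hw
  omega

end Pool.Agent.FKHyp
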