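import Pool.Agent.FKHyp.Defs

/-! The four point inequality implies thin triangles. -/

namespace Pool.Agent.FKHyp

variable {V : Type*} {G : SimpleGraph V}

theorem geo_mem {x y u : V} {p : G.Walk x y} (hp : IsGeodesic p) (hu : u ∈ p.support) :
    G.dist x u + G.dist u y = G.dist x y := by
  obtain ⟨q, r, rfl⟩ := SimpleGraph.Walk.mem_support_iff_exists_append.1 hu
  unfold IsGeodesic at hp
  rw [SimpleGraph.Walk.length_append] at hp
  have h1 := SimpleGraph.dist_le q
  have h2 := SimpleGraph.dist_le r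
  have h3 := (SimpleGraph.Walk.reachable q).dist_triangle_left y
  omega

theorem geo_append {x y u : V} {q : G.Walk x u} {r : G.Walk u y} (hp : IsGeodesic (q.append r)) :
    IsGeodesic q ∧ IsGeodesic r := by
  unfold IsGeodesic at *
  rw [SimpleGraph.Walk.length_append] at hp
  have h1 := SimpleGraph.dist_le q
  have h2 := SimpleGraph.dist_le r
  have h3 := (SimpleGraph.Walk.reachable q).dist_triangle_left y
  omega

theorem geo_point {x y : V} {p : G.Walk x y} (hp : IsGeodesic p) {m : ℕ}
    (hm : m ≤ G.dist x y) :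
    ∃ u ∈ p.support, G.dist x u = m ∧ G.dist u y + m = G.dist x y := by
  refine ⟨p.getVert m, SimpleGraph.Walk.getVert_mem_support p m, ?_⟩
  unfold IsGeodesic at hp
  have h1 := SimpleGraph.dist_le (p.take m)
  have h2 := SimpleGraph.dist_le (p.drop m)
  have h3 := (SimpleGraph.Walk.reachable (p.take m)).dist_triangle_left y
  rw [SimpleGraph.Walk.take_length] at h1
  rw [SimpleGraph.Walk.drop_length] at h2
  omega

/-- four point inequality with additive constant `C` -/
def FourPoint (G : SimpleGraph V) (C : ℕ) : Prop :=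
  ∀ x y z w : V, G.dist x y + G.dist z w ≤
    max (G.dist x z + G.dist y w) (G.dist x w + G.dist y z) + C

theorem near_side {C : ℕ} (h4 : FourPoint G C) {x z u : V} {r : G.Walk x z}
    (hr : IsGeodesic r) (hu : G.dist x u + G.dist u z ≤ G.dist x z + C) :
    ∃ w ∈ r.support, G.dist u w ≤ 2 * C := by
  obtain ⟨w, hw, hw1, hw2⟩ := geo_point hr (m := min (G.dist x u) (G.dist x z)) (min_le_right _ _)
  refine ⟨w, hw, ?_⟩
  have h := h4 u w x z
  have e1 : G.dist u x = G.dist x u := SimpleGraph.dist_comm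
  have e2 : G.dist w x = G.dist x w := SimpleGraph.dist_comm
  rw [e1, e2] at h
  omega

theorem near_side' {C : ℕ} (h4 : FourPoint G C) {x z u : V} {r : G.Walk z x}
    (hr : IsGeodesic r) (hu : G.dist x u + G.dist u z ≤ G.dist x z + C) :
    ∃ w ∈ r.support, G.dist u w ≤ 2 * C := by
  have e1 : G.dist u x = G.dist x u := SimpleGraph.dist_comm
  have e2 : G.dist u z = G.dist z u := SimpleGraph.dist_comm
  have e3 : G.dist z x = G.dist x z := SimpleGraph.dist_comm
  exact near_side h4 hr (by omega)

theorem side_near {C : ℕ} (h4 : FourPoint G C) {x y z : V} {p : G.Walk x y}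
    {q : G.Walk y z} {r : G.Walk z x} (hp : IsGeodesic p) (hq : IsGeodesic q)
    (hr : IsGeodesic r) {u : V} (hu : u ∈ p.support) :
    ∃ w, (w ∈ q.support ∨ w ∈ r.support) ∧ G.dist u w ≤ 2 * C := by
  have h := h4 x y z u
  have hpu := geo_mem hp hu
  have e1 : G.dist z u = G.dist u z := SimpleGraph.dist_comm
  have e2 : G.dist y u = G.dist u y := SimpleGraph.dist_comm
  rcases Nat.lt_or_ge (G.dist x z + G.dist y u) (G.dist x u + G.dist y z) with hlt | hge
  · have h5 : G.dist y u + G.dist u z ≤ G.dist y z + C := by omega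
    obtain ⟨w, hw, hd⟩ := near_side h4 hq h5
    exact ⟨w, Or.inl hw, hd⟩
  · have h5 : G.dist x u + G.dist u z ≤ G.dist x z + C := by omega
    obtain ⟨w, hw, hd⟩ := near_side' h4 hr h5
    exact ⟨w, Or.inr hw, hd⟩

theorem hyperbolic_of_fourPoint {C : ℕ} (h4 : FourPoint G C) : GromovHyperbolic G := by
  refine ⟨2 * C, fun x y z p q r hp hq hr => ⟨?_, ?_, ?_⟩⟩
  · intro u hu; exact side_near h4 hp hq hr hu
  · intro u hu; exact side_near h4 hq hr hp hu
  · intro u hu; exact side_near h4 hr hp hq hu

end Pool.Agent.FKHyp
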