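import Pool.Agent.FKHyp.FinVol

/-! Infinite volume: estimates for the free FK-Ising measure and its existence. -/

namespace Pool.Agent.FKHyp

open MeasureTheory Filter Topology

variable {V : Type*} {G : SimpleGraph V}

theorem exhaustion_mono {H : ℕ → FinSub G} (hH : IsExhaustion H) :
    Monotone (fun n => (H n).edges) ∧ Monotone (fun n => (H n).verts) :=
  ⟨monotone_nat_of_le_succ fun n => (hH.1 n).2, monotone_nat_of_le_succ fun n => (hH.1 n).1⟩

theorem exhaustion_subset {H : ℕ → FinSub G} (hH : IsExhaustion H) (W : Finset (Sym2 V))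
    (hW : ∀ e ∈ W, e ∈ G.edgeSet) : ∃ N, ∀ n, N ≤ n → W ⊆ (H n).edges := by
  classical
  induction W using Finset.induction_on with
  | empty => exact ⟨0, fun n _ => Finset.empty_subset _⟩
  | insert e W _ ih =>
    obtain ⟨N, hN⟩ := ih (fun e' he' => hW e' (Finset.mem_insert_of_mem he'))
    obtain ⟨M, hM⟩ := hH.2.2 e (hW e (Finset.mem_insert_self e W))
    refine ⟨max N M, fun n hn => Finset.insert_subset ?_ (hN n (le_trans (le_max_left _ _) hn))⟩
    exact (exhaustion_mono hH).1 (le_trans (le_max_right _ _) hn) hM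

theorem isClopen_coord (e : Sym2 V) (b : Bool) : IsClopen {ω : Config V | ω e = b} := by
  have : {ω : Config V | ω e = b} = (fun ω : Config V => ω e) ⁻¹' {b} := rfl
  rw [this]
  exact (isClopen_discrete {b}).preimage (continuous_apply e)

theorem toConfig_eq_true (ω : Finset (Sym2 V)) (e : Sym2 V) :
    toConfig ω e = true ↔ e ∈ ω := by
  unfold toConfig
  by_cases h : e ∈ ω <;> simp [h]

theorem toConfig_eq_false (ω : Finset (Sym2 V)) (e : Sym2 V) :
    toConfig ω e = false ↔ e ∉ ω := by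
  unfold toConfig
  by_cases h : e ∈ ω <;> simp [h]

theorem limit_le [Countable V] {p : ℝ} {μ : Measure (Config V)} (hμ : IsFreeFKIsing G p μ)
    (A : Set (Config V)) (hA : IsClopen A) (c : ℝ)
    (hc : ∀ H : ℕ → FinSub G, IsExhaustion H → ∀ᶠ n in atTop,
      fkExp (H n) p (A.indicator 1) ≤ c) : μ A ≤ ENNReal.ofReal c := by
  obtain ⟨hprob, H, hH, hlim⟩ := hμ
  have := hprob
  have : Countable (Sym2 V) := by
    unfold Sym2
    exact Quotient.countable
  have h1 := hlim (BoundedContinuousFunction.indicator A hA)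
  have h2 : ∫ ω, (BoundedContinuousFunction.indicator A hA) ω ∂μ = μ.real A := by
    have : (fun ω => (BoundedContinuousFunction.indicator A hA) ω) = A.indicator 1 := rfl
    rw [this, integral_indicator_one hA.isOpen.measurableSet]
  rw [h2] at h1
  have h3 : μ.real A ≤ c := le_of_tendsto h1 (hc H hH)
  have h4 : μ A = ENNReal.ofReal (μ.real A) := by
    rw [Measure.real, ENNReal.ofReal_toReal (measure_ne_top μ A)]
  rw [h4]
  exact ENNReal.ofReal_le_ofReal h3

theorem isClopen_open (W : Finset (Sym2 V)) : IsClopen {ω : Config V | ∀ e ∈ W, ω e = true} := by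
  have : {ω : Config V | ∀ e ∈ W, ω e = true} = ⋂ e ∈ W, {ω : Config V | ω e = true} := by
    ext ω; simp
  rw [this]
  exact isClopen_biInter_finset fun e _ => isClopen_coord e true

theorem measure_open_le [Countable V] {p : ℝ} (h0 : 0 < p) (h1 : p < 1) {μ : Measure (Config V)}
    (hμ : IsFreeFKIsing G p μ) (W : Finset (Sym2 V)) (hW : ∀ e ∈ W, e ∈ G.edgeSet) :
    μ {ω | ∀ e ∈ W, ω e = true} ≤ ENNReal.ofReal (p ^ W.card) := by
  classical
  refine limit_le hμ _ (isClopen_open W) _ ?_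
  intro H hH
  obtain ⟨N, hN⟩ := exhaustion_subset hH W hW
  filter_upwards [eventually_ge_atTop N] with n hn
  rw [fkExp_eq, div_le_iff₀ (wsum_one_pos (H n) h0 h1)]
  refine le_trans (le_of_eq ?_) (wsum_open_le (H n) h0 h1 W (hN n hn))
  congr 1
  funext ω
  rw [Set.indicator_apply]
  have : toConfig ω ∈ {ω : Config V | ∀ e ∈ W, ω e = true} ↔ W ⊆ ω := by
    simp only [Set.mem_ofPred_eq, toConfig_eq_true]
    rfl
  by_cases h : W ⊆ ω
  · rw [if_pos (this.2 h), if_pos h]; rfl
  · rw [if_neg (fun h' => h (this.1 h')), if_neg h]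

theorem measure_closed_le [Countable V] {p : ℝ} (h0 : 0 < p) (h1 : p < 1)
    {μ : Measure (Config V)} (hμ : IsFreeFKIsing G p μ) {ι : Type*} (I : Finset ι)
    (S : ι → Finset (Sym2 V)) (hS : ∀ i ∈ I, ∀ e ∈ S i, e ∈ G.edgeSet)
    (hcard : ∀ i ∈ I, (S i).card ≤ 2)
    (hdisj : ∀ i ∈ I, ∀ j ∈ I, i ≠ j → Disjoint (S i) (S j)) :
    μ {ω | ∀ i ∈ I, ∃ e ∈ S i, ω e = false} ≤
      ENNReal.ofReal ((1 - (p / (2 - p)) ^ 2) ^ I.card) := by
  classical
  have hclopen : IsClopen {ω : Config V | ∀ i ∈ I, ∃ e ∈ S i, ω e = false} := by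
    have : {ω : Config V | ∀ i ∈ I, ∃ e ∈ S i, ω e = false} =
        ⋂ i ∈ I, ⋃ e ∈ S i, {ω : Config V | ω e = false} := by
      ext ω; simp
    rw [this]
    exact isClopen_biInter_finset fun i _ =>
      Set.Finite.isClopen_biUnion (S i).finite_toSet fun e _ => isClopen_coord e false
  refine limit_le hμ _ hclopen _ ?_
  intro H hH
  obtain ⟨N, hN⟩ := exhaustion_subset hH (I.biUnion S) (by
    intro e he
    obtain ⟨i, hi, hei⟩ := Finset.mem_biUnion.1 he
    exact hS i hi e hei)
  filter_upwards [eventually_ge_atTop N] with n hn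
  rw [fkExp_eq, div_le_iff₀ (wsum_one_pos (H n) h0 h1)]
  refine le_trans (le_of_eq ?_) (wsum_closed_le (H n) h0 h1 I S
    (fun i hi => (Finset.subset_biUnion_of_mem S hi).trans (hN n hn)) hcard hdisj)
  congr 1
  funext ω
  rw [Set.indicator_apply]
  have : toConfig ω ∈ {ω : Config V | ∀ i ∈ I, ∃ e ∈ S i, ω e = false} ↔
      ∀ i ∈ I, ¬ S i ⊆ ω := by
    simp only [Set.mem_ofPred_eq, toConfig_eq_false, Finset.not_subset]
  by_cases h : ∀ i ∈ I, ¬ S i ⊆ ω
  · rw [if_pos (this.2 h), if_pos h]; rfl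
  · rw [if_neg (fun h' => h (this.1 h')), if_neg h]

/-- finite volume measure -/
noncomputable def finMeasure (H : FinSub G) (p : ℝ) : Measure (Config V) :=
  ∑ ω ∈ H.edges.powerset,
    ENNReal.ofReal (fkWeight H p ω / wsum H p (fun _ => 1)) • Measure.dirac (toConfig ω)

theorem finMeasure_prob (H : FinSub G) {p : ℝ} (h0 : 0 < p) (h1 : p < 1) :
    IsProbabilityMeasure (finMeasure H p) := by
  constructor
  unfold finMeasure
  have hZ := wsum_one_pos H h0 h1
  rw [Measure.finsetSum_apply]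
  simp only [Measure.smul_apply, measure_univ, smul_eq_mul, mul_one]
  rw [← ENNReal.ofReal_sum_of_nonneg
    (fun ω _ => div_nonneg (fkWeight_pos H h0 h1 ω).le hZ.le), ← Finset.sum_div]
  have : ∑ ω ∈ H.edges.powerset, fkWeight H p ω = wsum H p (fun _ => 1) := by
    unfold wsum; simp
  rw [this, div_self hZ.ne', ENNReal.ofReal_one]

theorem finMeasure_integral [Countable V] (H : FinSub G) {p : ℝ} (h0 : 0 < p) (h1 : p < 1)
    (f : BoundedContinuousFunction (Config V) ℝ) :
    ∫ ω, f ω ∂(finMeasure H p) = fkExp H p (fun ω => f ω) := by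
  have : Countable (Sym2 V) := by
    unfold Sym2
    exact Quotient.countable
  have hZ := wsum_one_pos H h0 h1
  rw [fkExp_eq]
  unfold finMeasure
  set Z := wsum H p (fun _ => 1) with hZdef
  clear_value Z
  rw [integral_finsetSum_measure]
  · rw [wsum, Finset.sum_div]
    apply Finset.sum_congr rfl
    intro ω _
    rw [integral_smul_measure, integral_dirac,
      ENNReal.toReal_ofReal (div_nonneg (fkWeight_pos H h0 h1 ω).le hZ.le), smul_eq_mul]
    ring
  · intro ω _
    apply Integrable.smul_measure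
    · exact f.integrable _
    · exact ENNReal.ofReal_ne_top

theorem exists_exhaustion [Countable V] [Nonempty V] (G : SimpleGraph V) :
    ∃ H : ℕ → FinSub G, IsExhaustion H := by
  classical
  obtain ⟨g, hg⟩ := exists_surjective_nat V
  let vs : ℕ → Finset V := fun n => (Finset.range n).image g
  have hvs : ∀ n, vs n ⊆ vs (n + 1) := fun n =>
    Finset.image_subset_image (Finset.range_subset_range.2 (Nat.le_succ n))
  have hmono : Monotone vs := monotone_nat_of_le_succ hvs
  refine ⟨fun n => ⟨vs n, (vs n).sym2.filter (fun e => e ∈ G.edgeSet), ?_, ?_⟩, ?_, ?_, ?_⟩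
  · intro e he; exact (Finset.mem_filter.1 he).2
  · intro e he v hv
    exact Finset.mem_sym2_iff.1 (Finset.mem_filter.1 he).1 v hv
  · intro n
    exact ⟨hvs n, Finset.filter_subset_filter _ (Finset.sym2_mono (hvs n))⟩
  · intro v
    obtain ⟨n, rfl⟩ := hg v
    exact ⟨n + 1, Finset.mem_image.2 ⟨n, Finset.mem_range.2 (Nat.lt_succ_self n), rfl⟩⟩
  · intro e he
    induction e using Sym2.ind with
    | _ a b =>
      obtain ⟨n, rfl⟩ := hg a
      obtain ⟨m, rfl⟩ := hg b
      refine ⟨max n m + 1, Finset.mem_filter.2 ⟨?_, he⟩⟩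
      rw [Finset.mem_sym2_iff]
      intro v hv
      rw [Sym2.mem_iff] at hv
      rcases hv with rfl | rfl
      · exact Finset.mem_image.2 ⟨n, Finset.mem_range.2 (by omega), rfl⟩
      · exact Finset.mem_image.2 ⟨m, Finset.mem_range.2 (by omega), rfl⟩

theorem exists_free [Countable V] [Nonempty V] (G : SimpleGraph V) {p : ℝ} (h0 : 0 < p)
    (h1 : p < 1) : ∃ μ : Measure (Config V), IsFreeFKIsing G p μ := by
  have : Countable (Sym2 V) := by
    unfold Sym2
    exact Quotient.countable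
  obtain ⟨H, hH⟩ := exists_exhaustion G
  let ν : ℕ → ProbabilityMeasure (Config V) := fun n =>
    ⟨finMeasure (H n) p, finMeasure_prob (H n) h0 h1⟩
  obtain ⟨μ, -, φ, hφ, hlim⟩ := isCompact_univ.tendsto_subseq (x := ν) (fun n => Set.mem_univ _)
  refine ⟨μ, μ.2, fun n => H (φ n), ⟨?_, ?_, ?_⟩, ?_⟩
  · intro n
    exact ⟨(exhaustion_mono hH).2 (hφ.monotone (Nat.le_succ n)),
      (exhaustion_mono hH).1 (hφ.monotone (Nat.le_succ n))⟩
  · intro v
    obtain ⟨n, hn⟩ := hH.2.1 v
    exact ⟨n, (exhaustion_mono hH).2 (hφ.id_le n) hn⟩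
  · intro e he
    obtain ⟨n, hn⟩ := hH.2.2 e he
    exact ⟨n, (exhaustion_mono hH).1 (hφ.id_le n) hn⟩
  · intro f
    have := (ProbabilityMeasure.tendsto_iff_forall_integral_tendsto.1 hlim) f
    refine this.congr fun n => ?_
    exact finMeasure_integral (H (φ n)) h0 h1 f

end Pool.Agent.FKHyp
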