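import Pool.Agent.FKHyp.Det

/-! Assembling the counterexample. -/

namespace Pool.Agent.FKHyp

open MeasureTheory Filter Topology Vert

theorem base_infinite {ω : Config Vert} {l : ℕ} (hA : ∀ n, l ≤ n → ω ∉ BadA n) :
    ((OO ω).connectedComponentMk (xx l 0)).supp.Infinite := by
  have h : Set.range (fun n : ℕ => xx (l + n) 0) ⊆
      ((OO ω).connectedComponentMk (xx l 0)).supp := by
    rintro _ ⟨n, rfl⟩
    rw [SimpleGraph.ConnectedComponent.mem_supp_iff, SimpleGraph.ConnectedComponent.eq]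
    exact ray_reach hA isRay_rL (Nat.le_add_right l n) le_rfl (xx_pos (isRay_rL _).1)
      (xx_pos (isRay_rL _).1)
  refine (Set.infinite_range_of_injective ?_).mono h
  intro n m hnm
  have h1 := congrArg Vert.pos hnm
  simp only at h1
  rw [xx_pos (by positivity), xx_pos (by positivity)] at h1
  have := congrArg Prod.fst h1
  simp only at this
  omega

theorem base_mem {ω : Config Vert} {l lB : ℕ} (hA : ∀ n, l ≤ n → ω ∉ BadA n)
    (hB : ∀ k, lB ≤ k → ω ∉ BadB k) (C : (OO ω).ConnectedComponent) (hC : C.supp.Infinite) :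
    (OO ω).connectedComponentMk (xx l 0) = C := by
  obtain ⟨a, ha⟩ := hC.nonempty
  let k := a.lev + l + lB + 1
  have hk1 : 1 ≤ k := by omega
  have hk2 : a.lev + l ≤ 4 ^ k / 2 := by
    have h1 : a.lev + l + lB < 4 ^ (a.lev + l + lB) := Nat.lt_pow_self (by norm_num)
    have h2 : 4 ^ k = 4 * 4 ^ (a.lev + l + lB) := by
      show 4 ^ (a.lev + l + lB + 1) = _
      ring
    omega
  have hBk : ω ∉ BadB k := hB k (by omega)
  obtain ⟨b, hb, hbl⟩ : ∃ b ∈ C.supp, 4 ^ k ≤ b.lev := by
    by_contra hcon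
    push Not at hcon
    exact hC ((finite_lev_le (4 ^ k)).subset fun x hx => (hcon x hx).le)
  have ha' : (OO ω).connectedComponentMk a = C := ha
  have hb' : (OO ω).connectedComponentMk b = C := hb
  have hba : (OO ω).Reachable b a :=
    SimpleGraph.ConnectedComponent.exact (hb'.trans ha'.symm)
  obtain ⟨P⟩ := hba
  obtain ⟨u, hu, hur, hu1, hu2⟩ := hit_ray hk1 hBk P hbl (by omega)
  obtain ⟨q1, q2, -⟩ := SimpleGraph.Walk.mem_support_iff_exists_append.1 hu
  have hx : OnRay (xx l 0) := by
    left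
    have h1 : (xx l 0).pos = (l, 0) := xx_pos (by positivity)
    have h2 : (xx l 0).lev = l := congrArg Prod.fst h1
    rw [h2]; exact h1
  have hxl : (xx l 0).lev = l := by
    have h1 : (xx l 0).pos = (l, 0) := xx_pos (by positivity)
    exact congrArg Prod.fst h1
  have h3 : (OO ω).Reachable (xx l 0) u :=
    ray_ray_reach hA hxl.ge (by omega) hx hur
  rw [← hb']
  exact SimpleGraph.ConnectedComponent.sound (h3.trans q1.reachable.symm)

section Transfer

variable {V : Type*} {G : SimpleGraph V}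

theorem support_mem_comp (C : G.ConnectedComponent) {x y : V} (hx : x ∈ C.supp)
    (p : G.Walk x y) : ∀ w ∈ p.support, w ∈ C.supp := by
  intro w hw
  obtain ⟨q1, q2, -⟩ := SimpleGraph.Walk.mem_support_iff_exists_append.1 hw
  rw [SimpleGraph.ConnectedComponent.mem_supp_iff] at hx ⊢
  rw [← hx]
  exact SimpleGraph.ConnectedComponent.sound q1.reachable.symm

theorem ind_length {s : Set V} {x y : V} (p : G.Walk x y) (h : ∀ w ∈ p.support, w ∈ s) :
    (p.induce s h).length = p.length := by
  have h1 : ((p.induce s h).map (SimpleGraph.Embedding.induce s).toHom).length =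
      (p.induce s h).length := SimpleGraph.Walk.length_map _ _
  have h2 := SimpleGraph.Walk.map_induce p h
  exact h1.symm.trans (congrArg SimpleGraph.Walk.length h2)

theorem mem_ind_support {s : Set V} {x y : V} (p : G.Walk x y) (h : ∀ w ∈ p.support, w ∈ s)
    (w : s) : w ∈ (p.induce s h).support ↔ (w : V) ∈ p.support := by
  rw [SimpleGraph.Walk.support_induce]
  simp [List.mem_attachWith]

theorem ind_dist (C : G.ConnectedComponent) (x y : C.supp) :
    (G.induce C.supp).dist x y = G.dist (x : V) (y : V) := by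
  have hr : G.Reachable (x : V) (y : V) := by
    have h1 := x.2
    have h2 := y.2
    rw [SimpleGraph.ConnectedComponent.mem_supp_iff] at h1 h2
    exact SimpleGraph.ConnectedComponent.exact (h1.trans h2.symm)
  obtain ⟨p, hp⟩ := hr.exists_walk_length_eq_dist
  have hps := support_mem_comp C x.2 p
  apply le_antisymm
  · rw [← hp, ← ind_length p hps]
    exact SimpleGraph.dist_le (p.induce C.supp hps)
  · have hr' : (G.induce C.supp).Reachable x y := (p.induce C.supp hps).reachable
    obtain ⟨q, hq⟩ := hr'.exists_walk_length_eq_dist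
    have h1 := SimpleGraph.dist_le (q.map (SimpleGraph.Embedding.induce C.supp).toHom)
    rw [SimpleGraph.Walk.length_map] at h1
    rw [← hq]
    exact h1

end Transfer

theorem FatTriangles.not_anchored {V : Type*} {Γ : SimpleGraph V} {v : V}
    (h : FatTriangles Γ v) : ¬ AnchoredHyperbolic Γ := by
  intro hA
  obtain ⟨δ, hδ⟩ := hA v
  obtain ⟨x, y, z, p, q, r, hp, hq, hr, hv, hfar⟩ := h δ
  obtain ⟨-, h2, -⟩ := hδ x y z p q r hp hq hr (Or.inr (Or.inl hv))
  obtain ⟨w, hw, hd⟩ := h2 v hv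
  have := hfar w hw.symm
  omega

theorem cluster_fat {ω : Config Vert} {l lB : ℕ} (hA : ∀ n, l ≤ n → ω ∉ BadA n)
    (hB : ∀ k, lB ≤ k → ω ∉ BadB k) (C : (OO ω).ConnectedComponent) (hC : C.supp.Infinite) :
    ∃ v : C.supp, FatTriangles C.toSimpleGraph v := by
  obtain ⟨v, hv, hfat⟩ := fat_triangles hA hB
  have hbase := base_mem hA hB C hC
  have hvC : v ∈ C.supp := by
    rw [SimpleGraph.ConnectedComponent.mem_supp_iff, ← hbase]
    exact SimpleGraph.ConnectedComponent.sound hv
  have hfin : FatTriangles ((OO ω).induce C.supp) ⟨v, hvC⟩ := by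
    intro δ
    obtain ⟨x, y, z, p, q, r, hp, hq, hr, hvq, hfar⟩ := hfat δ
    obtain ⟨q1, q2, -⟩ := SimpleGraph.Walk.mem_support_iff_exists_append.1 hvq
    have hyC : y ∈ C.supp := support_mem_comp C hvC q1.reverse y q1.reverse.end_mem_support
    have hzC : z ∈ C.supp := support_mem_comp C hyC q z q.end_mem_support
    have hxC : x ∈ C.supp := support_mem_comp C hzC r x r.end_mem_support
    refine ⟨⟨x, hxC⟩, ⟨y, hyC⟩, ⟨z, hzC⟩, p.induce C.supp (support_mem_comp C hxC p),
      q.induce C.supp (support_mem_comp C hyC q), r.induce C.supp (support_mem_comp C hzC r),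
      ?_, ?_, ?_, ?_, ?_⟩
    · unfold IsGeodesic; rw [ind_length, ind_dist]; exact hp
    · unfold IsGeodesic; rw [ind_length, ind_dist]; exact hq
    · unfold IsGeodesic; rw [ind_length, ind_dist]; exact hr
    · rw [mem_ind_support]; exact hvq
    · intro w hw
      rw [mem_ind_support, mem_ind_support] at hw
      rw [ind_dist]
      exact hfar w hw
  exact ⟨⟨v, hvC⟩, hfin⟩

theorem ae_main {p : ℝ} (h0 : 0 < p) (h1 : p < 1 / 20) {μ : Measure (Config Vert)}
    (hμ : IsFreeFKIsing GG p μ) : ∀ᵐ ω ∂μ, HasInfiniteCluster GG ω ∧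
      ∀ C : (openGraph GG ω).ConnectedComponent, C.supp.Infinite →
        ∃ v : C.supp, FatTriangles C.toSimpleGraph v := by
  filter_upwards [ae_badA h0 (by linarith) hμ, ae_badB h0 h1 hμ] with ω hA hB
  obtain ⟨l, hA⟩ := hA
  obtain ⟨lB, hB⟩ := hB
  exact ⟨⟨_, base_infinite hA⟩, fun C hC => cluster_fat hA hB C hC⟩

theorem criticalProb_GG : criticalProb GG = 0 := by
  apply le_antisymm
  · apply le_of_forall_pos_le_add
    intro ε hε
    have hp0 : 0 < min ε (1 / 40) := lt_min hε (by norm_num)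
    have hp1 : min ε (1 / 40) < (1 : ℝ) / 20 := lt_of_le_of_lt (min_le_right _ _) (by norm_num)
    obtain ⟨μ, hμ⟩ := exists_free GG hp0 (by linarith)
    have hprob := hμ.1
    rw [zero_add]
    refine (csInf_le ⟨0, fun x hx => hx.1⟩ ?_).trans (min_le_left ε (1 / 40))
    refine ⟨hp0.le, by linarith, μ, hμ, ?_⟩
    have hae := ae_main hp0 hp1 hμ
    have hae' : ∀ᵐ ω ∂μ, HasInfiniteCluster GG ω := hae.mono fun ω h => h.1
    rw [pos_iff_ne_zero]
    intro hzero
    have h2 : ∀ᵐ ω ∂μ, ¬ HasInfiniteCluster GG ω := by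
      rw [ae_iff]
      simpa using hzero
    obtain ⟨ω, h3, h4⟩ := (hae'.and h2).exists
    exact h4 h3
  · exact Real.sInf_nonneg fun x hx => hx.1

theorem main : ∃ (V : Type) (_ : Countable V) (G : SimpleGraph V),
    Infinite V ∧ G.Connected ∧ (∀ v, (G.neighborSet v).Finite) ∧ GromovHyperbolic G ∧
    criticalProb G = 0 ∧
    ∀ p : ℝ, 0 < p → p < 1 / 20 →
      (∃ μ : Measure (Config V), IsFreeFKIsing G p μ) ∧
      ∀ μ : Measure (Config V), IsFreeFKIsing G p μ →
        ∀ᵐ ω ∂μ, HasInfiniteCluster G ω ∧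
          ∀ C : (openGraph G ω).ConnectedComponent, C.supp.Infinite →
            ¬ AnchoredHyperbolic C.toSimpleGraph ∧
            ∃ v, FatTriangles C.toSimpleGraph v := by
  refine ⟨Vert, inferInstance, GG, inferInstance, GG_connected, locally_finite, GG_hyperbolic,
    criticalProb_GG, fun p h0 h1 => ⟨exists_free GG h0 (by linarith), fun μ hμ => ?_⟩⟩
  filter_upwards [ae_main h0 h1 hμ] with ω hω
  refine ⟨hω.1, fun C hC => ?_⟩
  obtain ⟨v, hv⟩ := hω.2 C hC
  exact ⟨hv.not_anchored, v, hv⟩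

end Pool.Agent.FKHyp
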