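import Pool.Agent.FKHyp.Limit
import Pool.Agent.FKHyp.Graph

/-! Almost sure properties of the free FK-Ising measure on the graph. -/

namespace Pool.Agent.FKHyp

open MeasureTheory Filter Topology Vert

/-- closing probability -/
noncomputable def rr (p : ℝ) : ℝ := 1 - (p / (2 - p)) ^ 2

theorem rr_bounds {p : ℝ} (h0 : 0 < p) (h1 : p < 1) : 0 ≤ rr p ∧ rr p < 1 := by
  unfold rr
  have hp2 : 0 < p / (2 - p) := div_pos h0 (by linarith)
  have hp1 : p / (2 - p) ≤ 1 := by rw [div_le_one (by linarith)]; linarith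
  have : (p / (2 - p)) ^ 2 ≤ 1 := pow_le_one₀ hp2.le hp1
  have : 0 < (p / (2 - p)) ^ 2 := by positivity
  constructor <;> linarith

/-- the vertices `a` and `b` have no common open neighbour over the position `P` -/
def NoCommon (a b : Vert) (P : ℕ × ℕ) : Set (Config Vert) :=
  {ω | ∀ c : Vert, c.pos = P → ¬ (ω s(a, c) = true ∧ ω s(b, c) = true)}

theorem noCommon_le {p : ℝ} (h0 : 0 < p) (h1 : p < 1) {μ : Measure (Config Vert)}
    (hμ : IsFreeFKIsing GG p μ) {a b : Vert} {P : ℕ × ℕ} (hab : a.pos = b.pos)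
    (hadj : HAdj a.pos P) (hP : P.2 < 2 ^ P.1) (hS : Strong P.1 P.2) :
    μ (NoCommon a b P) ≤ ENNReal.ofReal (rr p ^ 2 ^ P.1) := by
  classical
  let v : Fin (mult P.1 P.2) → Vert := fun c => ⟨P.1, P.2, c.1, hP, c.2⟩
  have hv : Function.Injective v := by
    intro c d h
    exact Fin.ext (congrArg Vert.cl h)
  have hvpos : ∀ c, (v c).pos = P := fun c => rfl
  have hav : ∀ c, a ≠ v c := fun c h => hadj.ne (by rw [← hvpos c, ← h])
  have hbv : ∀ c, b ≠ v c := fun c h => hadj.ne (by rw [hab, ← hvpos c, ← h])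
  let S : Fin (mult P.1 P.2) → Finset (Sym2 Vert) := fun c => {s(a, v c), s(b, v c)}
  have h := measure_closed_le h0 h1 hμ (Finset.univ : Finset (Fin (mult P.1 P.2))) S
    (by
      intro i _ e he
      simp only [S, Finset.mem_insert, Finset.mem_singleton] at he
      rcases he with rfl | rfl
      · rw [SimpleGraph.mem_edgeSet, GG_adj, hvpos]; exact hadj
      · rw [SimpleGraph.mem_edgeSet, GG_adj, hvpos, ← hab]; exact hadj)
    (fun i _ => Finset.card_le_two)
    (by
      intro i _ j _ hij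
      rw [Finset.disjoint_left]
      intro e he he'
      simp only [S, Finset.mem_insert, Finset.mem_singleton] at he he'
      have hne : v i ≠ v j := fun h => hij (hv h)
      have hai := hav i
      have haj := hav j
      have hbi := hbv i
      have hbj := hbv j
      rcases he with rfl | rfl <;> rcases he' with he' | he' <;> rw [Sym2.eq_iff] at he' <;>
        rcases he' with ⟨h3, h4⟩ | ⟨h3, h4⟩ <;> first | exact hne h4 | exact haj h3 | exact hbj h3)
  refine le_trans (measure_mono ?_) (h.trans (le_of_eq (by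
    rw [Finset.card_univ, Fintype.card_fin, mult_strong hS]; rfl)))
  intro ω hω i _
  have h2 := hω (v i) (hvpos i)
  by_cases h3 : ω s(a, v i) = true
  · refine ⟨s(b, v i), by simp [S], ?_⟩
    by_contra h4
    exact h2 ⟨h3, by simpa using h4⟩
  · exact ⟨s(a, v i), by simp [S], by simpa using h3⟩

/-- bad event for the strong part at level `n` -/
def BadA (n : ℕ) : Set (Config Vert) :=
  {ω | ∃ a b : Vert, ∃ P : ℕ × ℕ, a.lev = n ∧ a.pos = b.pos ∧ HAdj a.pos P ∧ P.2 < 2 ^ P.1 ∧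
    Strong P.1 P.2 ∧ ω ∈ NoCommon a b P}

/-- vertices at level `n` -/
noncomputable def levSet (n : ℕ) : Finset Vert :=
  ((finite_lev_le n).subset (fun x (hx : x.lev = n) => hx.le) : {x : Vert | x.lev = n}.Finite).toFinset

theorem mem_levSet {n : ℕ} {x : Vert} : x ∈ levSet n ↔ x.lev = n := by
  unfold levSet
  rw [Set.Finite.mem_toFinset]
  rfl

theorem card_levSet (n : ℕ) : (levSet n).card ≤ 4 ^ n := by
  have h : (levSet n).card ≤ (Finset.range (2 ^ n) ×ˢ Finset.range (2 ^ n)).card := by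
    apply Finset.card_le_card_of_injOn (fun x : Vert => (x.idx, x.cl))
    · intro x hx
      have hx' : x.lev = n := mem_levSet.1 hx
      have h1 := x.hidx
      have h2 := x.hcl
      have h3 : mult x.lev x.idx ≤ 2 ^ x.lev := by
        unfold mult
        split_ifs
        · exact le_rfl
        · exact Nat.one_le_two_pow
      simp only [Finset.coe_product, Finset.coe_range, Set.mem_prod, Set.mem_Iio]
      rw [← hx']
      exact ⟨h1, by omega⟩
    · intro x hx y hy hxy
      have hx' : x.lev = n := mem_levSet.1 hx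
      have hy' : y.lev = n := mem_levSet.1 hy
      simp only [Prod.mk.injEq] at hxy
      exact Vert.ext (hx'.trans hy'.symm) hxy.1 hxy.2
  refine h.trans (le_of_eq ?_)
  rw [Finset.card_product, Finset.card_range, ← mul_pow]
  norm_num

theorem badA_le {p : ℝ} (h0 : 0 < p) (h1 : p < 1) {μ : Measure (Config Vert)}
    (hμ : IsFreeFKIsing GG p μ) (n : ℕ) :
    μ (BadA (n + 1)) ≤ ENNReal.ofReal (256 * (((2 ^ n : ℕ) : ℝ) ^ 6 * rr p ^ (2 ^ n))) := by
  classical
  obtain ⟨hr0, hr1⟩ := rr_bounds h0 h1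
  let X : Finset (Vert × Vert × (ℕ × ℕ)) :=
    levSet (n + 1) ×ˢ levSet (n + 1) ×ˢ (Finset.range (n + 3) ×ˢ Finset.range (2 ^ (n + 2)))
  let E : Vert × Vert × (ℕ × ℕ) → Set (Config Vert) := fun x =>
    if x.1.lev = n + 1 ∧ x.1.pos = x.2.1.pos ∧ HAdj x.1.pos x.2.2 ∧ x.2.2.2 < 2 ^ x.2.2.1 ∧
      Strong x.2.2.1 x.2.2.2 then NoCommon x.1 x.2.1 x.2.2 else ∅
  have hsub : BadA (n + 1) ⊆ ⋃ x ∈ X, E x := by
    rintro ω ⟨a, b, P, ha, hab, hadj, hP, hS, hω⟩
    have hb : b.lev = n + 1 := by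
      have := congrArg Prod.fst hab
      simp only [pos] at this
      omega
    have hPl : P.1 < n + 3 := by
      unfold HAdj pos at hadj
      simp only at hadj
      omega
    have hPi : P.2 < 2 ^ (n + 2) :=
      lt_of_lt_of_le hP (Nat.pow_le_pow_right (by norm_num) (by omega))
    rw [Set.mem_iUnion₂]
    refine ⟨(a, b, P), ?_, ?_⟩
    · simp only [X, Finset.mem_product, Finset.mem_range]
      exact ⟨mem_levSet.2 ha, mem_levSet.2 hb, hPl, hPi⟩
    · simp only [E]
      rw [if_pos ⟨ha, hab, hadj, hP, hS⟩]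
      exact hω
  have hE : ∀ x ∈ X, μ (E x) ≤ ENNReal.ofReal (rr p ^ (2 ^ n)) := by
    intro x _
    by_cases hx : x.1.lev = n + 1 ∧ x.1.pos = x.2.1.pos ∧ HAdj x.1.pos x.2.2 ∧
        x.2.2.2 < 2 ^ x.2.2.1 ∧ Strong x.2.2.1 x.2.2.2
    · simp only [E]
      rw [if_pos hx]
      obtain ⟨ha, hab, hadj, hP, hS⟩ := hx
      refine (noCommon_le h0 h1 hμ hab hadj hP hS).trans ?_
      apply ENNReal.ofReal_le_ofReal
      apply pow_le_pow_of_le_one hr0 hr1.le
      apply Nat.pow_le_pow_right (by norm_num)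
      unfold HAdj pos at hadj
      simp only at hadj
      omega
    · simp only [E]
      rw [if_neg hx, measure_empty]
      exact zero_le
  have hcard : (X.card : ℝ) ≤ 256 * ((2 ^ n : ℕ) : ℝ) ^ 6 := by
    have hc : X.card ≤ 256 * (2 ^ n) ^ 6 := by
      simp only [X, Finset.card_product, Finset.card_range]
      have h3 := card_levSet (n + 1)
      have h4 : n + 3 ≤ 4 * 2 ^ n := by
        have : n < 2 ^ n := Nat.lt_two_pow_self
        omega
      have e1 : 4 ^ (n + 1) = 4 * (2 ^ n * 2 ^ n) := by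
        rw [← mul_pow, pow_succ]; norm_num; ring
      have e2 : 2 ^ (n + 2) = 4 * 2 ^ n := by ring
      calc (levSet (n + 1)).card * ((levSet (n + 1)).card * ((n + 3) * 2 ^ (n + 2)))
          ≤ 4 ^ (n + 1) * (4 ^ (n + 1) * ((4 * 2 ^ n) * 2 ^ (n + 2))) := by gcongr
        _ = 256 * (2 ^ n) ^ 6 := by rw [e1, e2]; ring
    exact_mod_cast hc
  calc μ (BadA (n + 1)) ≤ μ (⋃ x ∈ X, E x) := measure_mono hsub
    _ ≤ ∑ x ∈ X, μ (E x) := measure_biUnion_finset_le X E
    _ ≤ ∑ _x ∈ X, ENNReal.ofReal (rr p ^ (2 ^ n)) := Finset.sum_le_sum hE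
    _ = ENNReal.ofReal ((X.card : ℝ) * rr p ^ (2 ^ n)) := by
      rw [Finset.sum_const, nsmul_eq_mul, ENNReal.ofReal_mul (Nat.cast_nonneg X.card),
        ENNReal.ofReal_natCast]
    _ ≤ _ := by
      apply ENNReal.ofReal_le_ofReal
      rw [← mul_assoc]
      exact mul_le_mul_of_nonneg_right hcard (by positivity)

theorem ae_badA {p : ℝ} (h0 : 0 < p) (h1 : p < 1) {μ : Measure (Config Vert)}
    (hμ : IsFreeFKIsing GG p μ) : ∀ᵐ ω ∂μ, ∃ l, ∀ n, l ≤ n → ω ∉ BadA n := by
  obtain ⟨hr0, hr1⟩ := rr_bounds h0 h1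
  have hsum : Summable (fun n : ℕ => 256 * (((2 ^ n : ℕ) : ℝ) ^ 6 * rr p ^ (2 ^ n))) := by
    apply Summable.mul_left
    have h2 : Summable (fun m : ℕ => (m : ℝ) ^ 6 * rr p ^ m) :=
      summable_pow_mul_geometric_of_norm_lt_one 6 (by rw [Real.norm_of_nonneg hr0]; exact hr1)
    exact h2.comp_injective (i := fun n : ℕ => 2 ^ n) (Nat.pow_right_injective le_rfl)
  have hfin : ∑' n, μ (BadA (n + 1)) ≠ ⊤ := by
    refine ne_top_of_le_ne_top hsum.tsum_ofReal_ne_top ?_
    exact ENNReal.tsum_le_tsum (fun n => badA_le h0 h1 hμ n)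
  filter_upwards [ae_eventually_notMem hfin] with ω hω
  obtain ⟨l, hl⟩ := eventually_atTop.1 hω
  refine ⟨l + 1, fun n hn => ?_⟩
  obtain ⟨m, rfl⟩ : ∃ m, n = m + 1 := ⟨n - 1, by omega⟩
  exact hl m (by omega)

/-- open trails among the weak vertices -/
def TrailEv (W : Finset (Sym2 Vert)) (v : Vert) (L : ℕ) : Set (Config Vert) :=
  {ω | (∀ e ∈ W, ω e = true) ∧ ∃ (u : Vert) (q : GG.Walk v u), q.IsTrail ∧ L ≤ q.length ∧
    (∀ e ∈ q.edges, ω e = true ∧ e ∉ W) ∧ ∀ x ∈ q.support, ¬ Strong x.lev x.idx}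

/-- possible positions of neighbours -/
def nbPos (a : ℕ × ℕ) : Finset (ℕ × ℕ) :=
  {(a.1 + 1, 2 * a.2), (a.1 + 1, 2 * a.2 + 1), (a.1 - 1, a.2 / 2), (a.1, a.2 + 1),
    (a.1, a.2 - 1)}

theorem card_nbPos (a : ℕ × ℕ) : (nbPos a).card ≤ 5 := Finset.card_le_five

theorem mem_nbPos {a b : ℕ × ℕ} (h : HAdj a b) : b ∈ nbPos a := by
  unfold nbPos
  simp only [Finset.mem_insert, Finset.mem_singleton, Prod.ext_iff]
  unfold HAdj at h
  omega

open Classical in
/-- canonical vertex over a position, junk if there is none -/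
noncomputable def ofPos (d : Vert) (P : ℕ × ℕ) : Vert :=
  if h : P.2 < 2 ^ P.1 then mk0 P.1 P.2 h else d

theorem ofPos_weak (d : Vert) {v : Vert} (hv : ¬ Strong v.lev v.idx) : ofPos d v.pos = v := by
  unfold ofPos
  rw [dif_pos v.hpos]
  have h := v.hcl
  rw [mult_weak hv] at h
  exact Vert.ext rfl rfl (by simp only [mk0]; omega)

theorem trail_le {p : ℝ} (h0 : 0 < p) (h1 : p < 1) {μ : Measure (Config Vert)}
    (hμ : IsFreeFKIsing GG p μ) (L : ℕ) :
    ∀ (W : Finset (Sym2 Vert)) (v : Vert), (∀ e ∈ W, e ∈ GG.edgeSet) →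
      μ (TrailEv W v L) ≤ ENNReal.ofReal (p ^ W.card * (5 * p) ^ L) := by
  classical
  induction L with
  | zero =>
    intro W v hW
    rw [pow_zero, mul_one]
    exact (measure_mono (fun ω hω => hω.1)).trans (measure_open_le h0 h1 hμ W hW)
  | succ L ih =>
    intro W v hW
    let N : Finset Vert := (nbPos v.pos).image (ofPos v)
    have hN : N.card ≤ 5 := Finset.card_image_le.trans (card_nbPos _)
    let E : Vert → Set (Config Vert) := fun w =>
      if GG.Adj v w ∧ s(v, w) ∉ W then TrailEv (insert s(v, w) W) w L else ∅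
    have hsub : TrailEv W v (L + 1) ⊆ ⋃ w ∈ N, E w := by
      rintro ω ⟨hWω, u, q, hq, hlen, hedge, hsupp⟩
      cases q with
      | nil => simp at hlen
      | @cons _ w _ hadj q =>
        rw [SimpleGraph.Walk.isTrail_cons] at hq
        rw [SimpleGraph.Walk.length_cons] at hlen
        have hwweak : ¬ Strong w.lev w.idx :=
          hsupp w (by rw [SimpleGraph.Walk.support_cons]; simp)
        have hwN : w ∈ N := by
          refine Finset.mem_image.2 ⟨w.pos, mem_nbPos hadj, ofPos_weak v hwweak⟩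
        have hvw := hedge s(v, w) (by rw [SimpleGraph.Walk.edges_cons]; simp)
        rw [Set.mem_iUnion₂]
        refine ⟨w, hwN, ?_⟩
        simp only [E]
        rw [if_pos ⟨hadj, hvw.2⟩]
        refine ⟨?_, u, q, hq.1, by omega, ?_, ?_⟩
        · intro e he
          rcases Finset.mem_insert.1 he with rfl | he
          · exact hvw.1
          · exact hWω e he
        · intro e he
          have h3 := hedge e (by rw [SimpleGraph.Walk.edges_cons]; exact List.mem_cons_of_mem _ he)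
          refine ⟨h3.1, fun h4 => ?_⟩
          rcases Finset.mem_insert.1 h4 with rfl | h4
          · exact hq.2 he
          · exact h3.2 h4
        · intro x hx
          exact hsupp x (by rw [SimpleGraph.Walk.support_cons]; exact List.mem_cons_of_mem _ hx)
    have hE : ∀ w ∈ N, μ (E w) ≤ ENNReal.ofReal (p ^ (W.card + 1) * (5 * p) ^ L) := by
      intro w _
      by_cases hw : GG.Adj v w ∧ s(v, w) ∉ W
      · simp only [E]
        rw [if_pos hw]
        have := ih (insert s(v, w) W) w (by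
          intro e he
          rcases Finset.mem_insert.1 he with rfl | he
          · exact hw.1
          · exact hW e he)
        rwa [Finset.card_insert_of_notMem hw.2] at this
      · simp only [E]
        rw [if_neg hw, measure_empty]
        exact zero_le
    calc μ (TrailEv W v (L + 1)) ≤ μ (⋃ w ∈ N, E w) := measure_mono hsub
      _ ≤ ∑ w ∈ N, μ (E w) := measure_biUnion_finset_le N E
      _ ≤ ∑ _w ∈ N, ENNReal.ofReal (p ^ (W.card + 1) * (5 * p) ^ L) := Finset.sum_le_sum hE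
      _ = ENNReal.ofReal ((N.card : ℝ) * (p ^ (W.card + 1) * (5 * p) ^ L)) := by
        rw [Finset.sum_const, nsmul_eq_mul, ENNReal.ofReal_mul (Nat.cast_nonneg N.card),
          ENNReal.ofReal_natCast]
      _ ≤ _ := by
        apply ENNReal.ofReal_le_ofReal
        have h5 : (N.card : ℝ) ≤ 5 := by exact_mod_cast hN
        calc (N.card : ℝ) * (p ^ (W.card + 1) * (5 * p) ^ L)
            ≤ 5 * (p ^ (W.card + 1) * (5 * p) ^ L) :=
              mul_le_mul_of_nonneg_right h5 (by positivity)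
          _ = p ^ W.card * (5 * p) ^ (L + 1) := by ring

/-- bad event for the weak part below the level `4 ^ k` -/
def BadB (k : ℕ) : Set (Config Vert) :=
  {ω | ∃ v : Vert, v.lev + 1 = 4 ^ k ∧ ¬ Strong v.lev v.idx ∧ ω ∈ TrailEv ∅ v (4 ^ k / 2 - 2)}

theorem badB_le {p : ℝ} (h0 : 0 < p) (h1 : p < 1) {μ : Measure (Config Vert)}
    (hμ : IsFreeFKIsing GG p μ) (k : ℕ) (hk : 1 ≤ k) :
    μ (BadB k) ≤ ENNReal.ofReal (8 * (20 * p) ^ (4 ^ k / 2 - 2)) := by
  classical
  have h4 : 4 ≤ 4 ^ k := by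
    calc 4 = 4 ^ 1 := (pow_one 4).symm
      _ ≤ 4 ^ k := Nat.pow_le_pow_right (by norm_num) hk
  have hev : 4 ^ k = 2 * (4 ^ k / 2) := by
    obtain ⟨m, rfl⟩ : ∃ m, k = m + 1 := ⟨k - 1, by omega⟩
    rw [pow_succ]; omega
  obtain ⟨j, hj⟩ : ∃ j, 4 ^ k / 2 = j + 2 := ⟨4 ^ k / 2 - 2, by omega⟩
  rw [hj] at hev
  have hj2 : 4 ^ k / 2 - 2 = j := by omega
  let N : Finset Vert :=
    (Finset.range (2 ^ (4 ^ k - 1))).image (fun i => ofPos (mk0 0 0 (by norm_num)) (4 ^ k - 1, i))
  have hN : N.card ≤ 2 ^ (4 ^ k - 1) := by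
    refine Finset.card_image_le.trans ?_
    rw [Finset.card_range]
  have hsub : BadB k ⊆ ⋃ v ∈ N, TrailEv ∅ v (4 ^ k / 2 - 2) := by
    rintro ω ⟨v, hv, hw, hω⟩
    rw [Set.mem_iUnion₂]
    refine ⟨v, ?_, hω⟩
    have hl : v.lev = 4 ^ k - 1 := by omega
    refine Finset.mem_image.2 ⟨v.idx, ?_, ?_⟩
    · rw [Finset.mem_range, ← hl]; exact v.hidx
    · rw [← hl]; exact ofPos_weak _ hw
  calc μ (BadB k) ≤ μ (⋃ v ∈ N, TrailEv ∅ v (4 ^ k / 2 - 2)) := measure_mono hsub
    _ ≤ ∑ v ∈ N, μ (TrailEv ∅ v (4 ^ k / 2 - 2)) := measure_biUnion_finset_le N _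
    _ ≤ ∑ _v ∈ N, ENNReal.ofReal ((5 * p) ^ j) := by
      apply Finset.sum_le_sum
      intro v _
      have := trail_le h0 h1 hμ j ∅ v (by simp)
      rw [Finset.card_empty, pow_zero, one_mul] at this
      rw [hj2]
      exact this
    _ = ENNReal.ofReal ((N.card : ℝ) * (5 * p) ^ j) := by
      rw [Finset.sum_const, nsmul_eq_mul, ENNReal.ofReal_mul (Nat.cast_nonneg N.card),
        ENNReal.ofReal_natCast]
    _ ≤ _ := by
      rw [hj2]
      apply ENNReal.ofReal_le_ofReal
      have h5 : (N.card : ℝ) ≤ 8 * 4 ^ j := by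
        have e : 2 ^ (4 ^ k - 1) = 8 * 4 ^ j := by
          have e1 : 4 ^ k - 1 = 3 + 2 * j := by omega
          rw [e1, pow_add, pow_mul]; norm_num
        rw [e] at hN
        exact_mod_cast hN
      calc (N.card : ℝ) * (5 * p) ^ j ≤ 8 * 4 ^ j * (5 * p) ^ j :=
            mul_le_mul_of_nonneg_right h5 (by positivity)
        _ = 8 * (20 * p) ^ j := by
          rw [mul_assoc, ← mul_pow]; ring_nf

theorem ae_badB {p : ℝ} (h0 : 0 < p) (h1 : p < 1 / 20) {μ : Measure (Config Vert)}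
    (hμ : IsFreeFKIsing GG p μ) : ∀ᵐ ω ∂μ, ∃ l, ∀ k, l ≤ k → ω ∉ BadB k := by
  have hp1 : p < 1 := by linarith
  have hsum : Summable (fun k : ℕ => 8 * (20 * p) ^ (4 ^ (k + 1) / 2 - 2)) := by
    apply Summable.mul_left
    have h2 : Summable (fun m : ℕ => (20 * p) ^ m) :=
      summable_geometric_of_lt_one (by linarith) (by linarith)
    refine h2.comp_injective (i := fun k : ℕ => 4 ^ (k + 1) / 2 - 2) ?_
    have hmono : StrictMono (fun k : ℕ => 4 ^ (k + 1) / 2 - 2) := by
      apply strictMono_nat_of_lt_succ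
      intro k
      have e1 : 4 ^ (k + 1) = 4 * 4 ^ k := by ring
      have e2 : 4 ^ (k + 1 + 1) = 16 * 4 ^ k := by ring
      have : 0 < 4 ^ k := by positivity
      change 4 ^ (k + 1) / 2 - 2 < 4 ^ (k + 1 + 1) / 2 - 2
      rw [e1, e2]
      omega
    exact hmono.injective
  have hfin : ∑' k, μ (BadB (k + 1)) ≠ ⊤ := by
    refine ne_top_of_le_ne_top hsum.tsum_ofReal_ne_top ?_
    exact ENNReal.tsum_le_tsum (fun k => badB_le h0 hp1 hμ (k + 1) (by omega))
  filter_upwards [ae_eventually_notMem hfin] with ω hω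
  obtain ⟨l, hl⟩ := eventually_atTop.1 hω
  refine ⟨l + 1, fun n hn => ?_⟩
  obtain ⟨m, rfl⟩ : ∃ m, n = m + 1 := ⟨n - 1, by omega⟩
  exact hl m (by omega)

end Pool.Agent.FKHyp
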